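import Pool.Agent.RRG.St

/-!
# RRG [ALM]: asymptotics of `A n k`
-/

set_option autoImplicit false

open Finset MeasureTheory Filter Topology

namespace Pool.Agent.RRG

open Pool.Agent.Helper51.RT

theorem ALM_wv_cont (θ : ℝ) : Continuous (wv θ) := by
  unfold wv
  exact continuous_const.add (continuous_const.mul (Complex.continuous_sinh.comp
    (continuous_const.add (Complex.continuous_ofReal.mul continuous_const))))

theorem ALM_dn_cont (θ : ℝ) : Continuous (dn θ) := by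
  unfold dn
  exact continuous_const.add (Complex.continuous_exp.comp
    (continuous_const.add (Complex.continuous_ofReal.mul continuous_const)).neg)

theorem ALM_dn_ne {θ : ℝ} (hθ : 0 < θ) (t : ℝ) : dn θ t ≠ 0 := by
  intro h
  unfold dn at h
  have h1 : Complex.exp (-((θ : ℂ) + t * Complex.I)) = -1 := by linear_combination h
  have h2 : ‖Complex.exp (-((θ : ℂ) + t * Complex.I))‖ = Real.exp (-θ) := by
    rw [Complex.norm_exp]
    congr 1
    simp
  rw [h1, norm_neg, norm_one] at h2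
  have h3 : Real.exp (-θ) < 1 := by
    rw [← Real.exp_zero]
    exact Real.exp_lt_exp.2 (by linarith)
  linarith

theorem ALM_gg_cont (hHHB : St_HHB) (n k : ℕ) {θ : ℝ} (hθ : 0 < θ) : Continuous (gg n k θ) := by
  have h1 : Continuous (hh n) := continuous_iff_continuousAt.2 fun w =>
    (hHHB.2.1 n w).continuousAt
  unfold gg
  refine (((h1.comp (ALM_wv_cont θ)).div_const _).mul ?_).mul ?_
  · exact Complex.continuous_exp.comp
      ((continuous_const.mul Complex.continuous_ofReal).mul continuous_const).neg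
  · exact continuous_const.div (ALM_dn_cont θ) (ALM_dn_ne hθ)

theorem ALM_int (g : ℝ → ℂ) (hg : Continuous g) :
    (∫ t in (-Real.pi)..Real.pi, g t * (1 - (Real.cos t : ℂ))) =
      (∫ t in (-Real.pi)..Real.pi, g t) - ∫ t in (-Real.pi)..Real.pi, g t * (Real.cos t : ℂ) := by
  have hc : Continuous fun t : ℝ => g t * (Real.cos t : ℂ) :=
    hg.mul (Complex.continuous_ofReal.comp Real.continuous_cos)
  rw [← intervalIntegral.integral_sub (hg.intervalIntegrable _ _) (hc.intervalIntegrable _ _)]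
  refine intervalIntegral.integral_congr fun t _ => ?_
  show g t * (1 - (Real.cos t : ℂ)) = g t - g t * (Real.cos t : ℂ)
  ring

theorem ALM_int2 (g : ℝ → ℂ) (hg : Continuous g) (e : ℂ) :
    (∫ t in (-Real.pi)..Real.pi, g t * ((Real.cos t : ℂ) + e * (Real.sin t : ℂ))) =
      (∫ t in (-Real.pi)..Real.pi, g t * (Real.cos t : ℂ)) +
        e * ∫ t in (-Real.pi)..Real.pi, g t * (Real.sin t : ℂ) := by
  have hc : Continuous fun t : ℝ => g t * (Real.cos t : ℂ) :=
    hg.mul (Complex.continuous_ofReal.comp Real.continuous_cos)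
  have hs : Continuous fun t : ℝ => e * (g t * (Real.sin t : ℂ)) :=
    continuous_const.mul (hg.mul (Complex.continuous_ofReal.comp Real.continuous_sin))
  rw [← intervalIntegral.integral_const_mul,
    ← intervalIntegral.integral_add (hc.intervalIntegrable _ _) (hs.intervalIntegrable _ _)]
  refine intervalIntegral.integral_congr fun t _ => ?_
  show g t * ((Real.cos t : ℂ) + e * (Real.sin t : ℂ)) =
    g t * (Real.cos t : ℂ) + e * (g t * (Real.sin t : ℂ))
  ring

theorem ALM_w0 {θ : ℝ} (hθ : 0 < θ) : 1 ≤ w0 θ := by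
  unfold w0
  have := Real.sinh_nonneg_iff.2 hθ.le
  linarith

/-- the three values -/
theorem ALM_one (hHHB : St_HHB) (hHRQ : St_HRQ) (hGGA : St_GGA) (n k : ℕ) {θ : ℝ} (hθ : 0 < θ)
    (hk : 1 ≤ k) (hs : 0 < sg n θ) :
    ((A n k / Bn n k θ : ℝ) : ℂ) = (sg n θ : ℂ) * ∫ t in (-Real.pi)..Real.pi, gg n k θ t ∧
    ((A n (k + 1) * Real.exp θ / Bn n k θ : ℝ) : ℂ) =
      (sg n θ : ℂ) * ((∫ t in (-Real.pi)..Real.pi, gg n k θ t * (Real.cos t : ℂ)) +
        (-Complex.I) * ∫ t in (-Real.pi)..Real.pi, gg n k θ t * (Real.sin t : ℂ)) ∧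
    ((A n (k - 1) * Real.exp (-θ) / Bn n k θ : ℝ) : ℂ) =
      (sg n θ : ℂ) * ((∫ t in (-Real.pi)..Real.pi, gg n k θ t * (Real.cos t : ℂ)) +
        Complex.I * ∫ t in (-Real.pi)..Real.pi, gg n k θ t * (Real.sin t : ℂ)) := by
  have hw : 0 < hr n (w0 θ) := (hHRQ n (w0 θ) (ALM_w0 hθ)).1
  have hg := ALM_gg_cont hHHB n k hθ
  have hpi := Real.pi_pos
  have hden : 0 < 1 + Real.exp (-θ) := by positivity
  have key : ∀ (x : ℝ) (e : ℝ), e ≠ 0 → ∀ l : ℕ, Real.exp (k * θ) * e = Real.exp (l * θ) →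
      ((x * e / Bn n k θ : ℝ) : ℂ) = (sg n θ : ℂ) *
        ((2 * Real.pi * (1 + Real.exp (-θ)) * Real.exp (l * θ) * x / hr n (w0 θ) : ℝ) : ℂ) := by
    intro x e he l hl
    rw [← Complex.ofReal_mul, Complex.ofReal_inj, ← hl]
    unfold Bn
    rw [Real.exp_neg]
    have h1 : Real.exp (k * θ) ≠ 0 := (Real.exp_pos _).ne'
    field_simp
  refine ⟨?_, ?_, ?_⟩
  · have h1 := key (A n k) 1 one_ne_zero k (by rw [mul_one])
    rw [mul_one] at h1
    rw [h1, hGGA θ n k k hθ]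
    congr 1
    refine intervalIntegral.integral_congr fun t _ => ?_
    simp
  · rw [key (A n (k + 1)) (Real.exp θ) (Real.exp_pos _).ne' (k + 1) (by
      rw [← Real.exp_add]
      congr 1
      push_cast
      ring), hGGA θ n k (k + 1) hθ, ← ALM_int2 _ hg]
    congr 1
    refine intervalIntegral.integral_congr fun t _ => ?_
    congr 1
    have h1 : -((((k + 1 : ℕ) : ℂ) - k) * t * Complex.I) = ((-t : ℝ) : ℂ) * Complex.I := by
      push_cast
      ring
    rw [h1, Complex.exp_mul_I, ← Complex.ofReal_cos, ← Complex.ofReal_sin, Real.cos_neg,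
      Real.sin_neg]
    push_cast
    ring
  · rw [key (A n (k - 1)) (Real.exp (-θ)) (Real.exp_pos _).ne' (k - 1) (by
      rw [← Real.exp_add, Nat.cast_sub hk]
      congr 1
      push_cast
      ring), hGGA θ n k (k - 1) hθ, ← ALM_int2 _ hg]
    congr 1
    refine intervalIntegral.integral_congr fun t _ => ?_
    congr 1
    have h1 : -((((k - 1 : ℕ) : ℂ) - k) * t * Complex.I) = ((t : ℝ) : ℂ) * Complex.I := by
      rw [Nat.cast_sub hk]
      push_cast
      ring
    rw [h1, Complex.exp_mul_I, ← Complex.ofReal_cos, ← Complex.ofReal_sin]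
    ring

/-- real limits from complex ones -/
theorem ALM_real {f : ℕ → ℝ} {F : ℕ → ℂ} {a : ℝ} (h : ∀ᶠ i in atTop, ((f i : ℝ) : ℂ) = F i)
    (hF : Tendsto F atTop (𝓝 (a : ℂ))) : Tendsto f atTop (𝓝 a) := by
  have h1 : Tendsto (fun i => (F i).re) atTop (𝓝 ((a : ℂ)).re) :=
    (Complex.continuous_re.tendsto _).comp hF
  rw [Complex.ofReal_re] at h1
  refine h1.congr' ?_
  filter_upwards [h] with i hi
  rw [← hi, Complex.ofReal_re]

theorem ALM_Bn_pos (hHRQ : St_HRQ) (n k : ℕ) {θ : ℝ} (hθ : 0 < θ) (hs : 0 < sg n θ) :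
    0 < Bn n k θ := by
  have hw : 0 < hr n (w0 θ) := (hHRQ n (w0 θ) (ALM_w0 hθ)).1
  have hpi := Real.pi_pos
  unfold Bn
  positivity

/-- [ALM] -/
theorem thm_ALM (hHHB : St_HHB) (hHRQ : St_HRQ) (hSGI : St_SGI) (hGGA : St_GGA) (hGPW : St_GPW)
    (hGDO : St_GDO) (hDCL : St_DCL) : St_ALM := by
  intro Θ n k θ hSq
  obtain ⟨hσ, -, -, hσ0⟩ := hSGI Θ n k θ hSq
  obtain ⟨C, c, hc, hbd⟩ := hGDO Θ n k θ hSq
  have hev : ∀ᶠ i in atTop, 0 < θ i ∧ 1 ≤ k i ∧ 0 < sg (n i) (θ i) := by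
    filter_upwards [hSq.1, hσ0] with i hi hi2
    obtain ⟨h1, h2, -, h4⟩ := hi
    refine ⟨h2, ?_, hi2.1⟩
    by_contra h5
    have h6 : k i = 0 := by omega
    rw [h6, Nat.cast_zero] at h4
    have h7 : 0 < √(n i : ℝ) := Real.sqrt_pos.2 (by exact_mod_cast h1)
    have h8 := Real.cosh_pos (θ i)
    have h9 : 0 < 2 * √(n i : ℝ) * Real.cosh (θ i) := by positivity
    linarith
  obtain ⟨ha, hb, hcc, hd⟩ := hDCL (fun i => sg (n i) (θ i)) (fun i => gg (n i) (k i) (θ i)) C c hc hσ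
    (by
      filter_upwards [hev] with i hi
      exact ALM_gg_cont hHHB (n i) (k i) hi.1) hbd (hGPW Θ n k θ hSq)
  have hpi : (0 : ℝ) < √(2 * Real.pi) := Real.sqrt_pos.2 (by have := Real.pi_pos; positivity)
  have hsq : √(2 * Real.pi) ^ 2 = 2 * Real.pi :=
    Real.sq_sqrt (by have := Real.pi_pos; positivity)
  -- the sequence `sg * Ss`
  have hinv : Tendsto (fun i => ((sg (n i) (θ i))⁻¹ : ℝ)) atTop (𝓝 0) := hσ.inv_tendsto_atTop
  have hd1 : Tendsto (fun i => (sg (n i) (θ i) : ℂ) *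
      ∫ t in (-Real.pi)..Real.pi, gg (n i) (k i) (θ i) t * (Real.sin t : ℂ)) atTop (𝓝 0) := by
    have h1 : Tendsto (fun i => (((sg (n i) (θ i))⁻¹ : ℝ) : ℂ)) atTop (𝓝 ((0 : ℝ) : ℂ)) :=
      (Complex.continuous_ofReal.tendsto _).comp hinv
    have h2 := h1.mul hd
    rw [Complex.ofReal_zero, zero_mul] at h2
    refine h2.congr' ?_
    filter_upwards [hev] with i hi
    have h3 : (sg (n i) (θ i) : ℂ) ≠ 0 := by exact_mod_cast hi.2.2.ne'
    rw [Complex.ofReal_inv]
    field_simp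
  have hp : ∀ e : ℂ, Tendsto (fun i => (sg (n i) (θ i) : ℂ) *
      ((∫ t in (-Real.pi)..Real.pi, gg (n i) (k i) (θ i) t * (Real.cos t : ℂ)) +
        e * ∫ t in (-Real.pi)..Real.pi, gg (n i) (k i) (θ i) t * (Real.sin t : ℂ))) atTop
      (𝓝 ((√(2 * Real.pi) : ℝ) : ℂ)) := by
    intro e
    have h1 := hb.add (hd1.const_mul e)
    rw [mul_zero, add_zero] at h1
    refine h1.congr fun i => ?_
    ring
  have l1 : Tendsto (fun i => A (n i) (k i) / Bn (n i) (k i) (θ i)) atTop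
      (𝓝 √(2 * Real.pi)) := by
    refine ALM_real ?_ ha
    filter_upwards [hev] with i hi
    exact (ALM_one hHHB hHRQ hGGA (n i) (k i) hi.1 hi.2.1 hi.2.2).1
  refine ⟨l1, ALM_real ?_ (hp (-Complex.I)), ALM_real ?_ (hp Complex.I), ?_⟩
  · filter_upwards [hev] with i hi
    exact (ALM_one hHHB hHRQ hGGA (n i) (k i) hi.1 hi.2.1 hi.2.2).2.1
  · filter_upwards [hev] with i hi
    exact (ALM_one hHHB hHRQ hGGA (n i) (k i) hi.1 hi.2.1 hi.2.2).2.2
  · -- the fourth limit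
    have hne : ((√(2 * Real.pi) : ℝ) : ℂ) ≠ 0 := by exact_mod_cast hpi.ne'
    have h1 := ((hcc.mul (ha.add hb)).sub (hd.pow 2)).div (ha.pow 2) (pow_ne_zero 2 hne)
    have h2 : (((√(2 * Real.pi) / 2 : ℝ) : ℂ) *
        (((√(2 * Real.pi) : ℝ) : ℂ) + ((√(2 * Real.pi) : ℝ) : ℂ)) - 0 ^ 2) /
          ((√(2 * Real.pi) : ℝ) : ℂ) ^ 2 = ((1 : ℝ) : ℂ) := by
      push_cast
      field_simp
      ring
    rw [h2] at h1
    refine ALM_real ?_ h1
    have hx : ∀ᶠ i in atTop, 0 < A (n i) (k i) / Bn (n i) (k i) (θ i) :=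
      l1.eventually (lt_mem_nhds hpi)
    filter_upwards [hev, hx] with i hi hxi
    obtain ⟨e1, e2, e3⟩ := ALM_one hHHB hHRQ hGGA (n i) (k i) hi.1 hi.2.1 hi.2.2
    have hB := ALM_Bn_pos hHRQ (n i) (k i) hi.1 hi.2.2
    have hA : A (n i) (k i) ≠ 0 := by
      intro h0
      rw [h0, zero_div] at hxi
      exact lt_irrefl _ hxi
    have hee : Real.exp (-θ i) * Real.exp (θ i) = 1 := by
      rw [← Real.exp_add, neg_add_cancel, Real.exp_zero]
    -- ratio
    have hrat : A (n i) (k i - 1) * A (n i) (k i + 1) / A (n i) (k i) ^ 2 =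
        (A (n i) (k i - 1) * Real.exp (-θ i) / Bn (n i) (k i) (θ i)) *
          (A (n i) (k i + 1) * Real.exp (θ i) / Bn (n i) (k i) (θ i)) /
            (A (n i) (k i) / Bn (n i) (k i) (θ i)) ^ 2 := by
      have hB' := hB.ne'
      field_simp
      linear_combination (-(A (n i) (k i - 1) * A (n i) (k i + 1))) * hee
    rw [hrat]
    rw [Complex.ofReal_mul, Complex.ofReal_pow, Complex.ofReal_sub, Complex.ofReal_one,
      Complex.ofReal_div, Complex.ofReal_mul, Complex.ofReal_pow, e1, e2, e3]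
    simp only [Pi.div_apply]
    rw [ALM_int _ (ALM_gg_cont hHHB (n i) (k i) hi.1)]
    have hX : (sg (n i) (θ i) : ℂ) * ∫ t in (-Real.pi)..Real.pi, gg (n i) (k i) (θ i) t ≠ 0 := by
      rw [← e1]
      exact_mod_cast hxi.ne'
    set σ : ℂ := (sg (n i) (θ i) : ℂ) with hσd
    set I0 := ∫ t in (-Real.pi)..Real.pi, gg (n i) (k i) (θ i) t
    set Cc := ∫ t in (-Real.pi)..Real.pi, gg (n i) (k i) (θ i) t * (Real.cos t : ℂ)
    set Ss := ∫ t in (-Real.pi)..Real.pi, gg (n i) (k i) (θ i) t * (Real.sin t : ℂ)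
    have hI2 : Complex.I ^ 2 = -1 := Complex.I_sq
    have hσ1 : σ ≠ 0 := left_ne_zero_of_mul hX
    have hI1 : I0 ≠ 0 := right_ne_zero_of_mul hX
    field_simp
    linear_combination Ss ^ 2 * hI2

end Pool.Agent.RRG
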