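import Pool.Agent.RRG.St

/-!
# RRG: how the modules fit together
-/

set_option autoImplicit false

namespace Pool.Agent.RRG

/-- all modules together -/
theorem RRG_check
    (tTWI : St_TWI) (tTWY : St_TWI → St_TWY) (tTWB : St_TWY → St_TWB)
    (tHHB : St_HHB) (tODE : St_HHB → St_ODE) (tHRQ : St_HRQ) (tHRG : St_HHB → St_HRQ → St_HRG)
    (tGGB : St_HHB → St_ODE → St_HRQ → St_GGB)
    (tVER : St_HHB → St_ODE → St_GGB → St_VER) (tDOM : St_VER → St_GGB → St_DOM)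
    (tPWD : St_HHB → St_ODE → St_HRQ → St_GGB → St_DOM → St_PWD)
    (tFOE : St_HHB → St_FOE) (tFOA : St_HHB → St_FOE → St_FOA) (tGGA : St_FOA → St_HRQ → St_GGA)
    (tSGI : St_SGI) (tGPW : St_SGI → St_PWD → St_GPW) (tGDO : St_SGI → St_HRQ → St_DOM → St_GDO)
    (tDCL : St_DCL)
    (tALM : St_HHB → St_HRQ → St_SGI → St_GGA → St_GPW → St_GDO → St_DCL → St_ALM)
    (tPSI : St_PSI) (tERB : St_HRQ → St_SGI → St_TWB → St_HRG → St_PSI → St_ERB)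
    (tGLM : St_SGI → St_ALM → St_ERB → St_GLM) (tSEQ : St_SEQ) (tCRD : St_CRD) (tRTL : St_RTL)
    (tMLM : St_SEQ → St_GLM → St_SGI → St_CRD → St_MLM) (tMIN : St_MLM → St_RTL → St_MIN) :
    St_MLM ∧ St_MIN := by
  have hODE := tODE tHHB
  have hHRG := tHRG tHHB tHRQ
  have hGGB := tGGB tHHB hODE tHRQ
  have hDOM := tDOM (tVER tHHB hODE hGGB) hGGB
  have hPWD := tPWD tHHB hODE tHRQ hGGB hDOM
  have hGGA := tGGA (tFOA tHHB (tFOE tHHB)) tHRQ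
  have hALM := tALM tHHB tHRQ tSGI hGGA (tGPW tSGI hPWD) (tGDO tSGI tHRQ hDOM) tDCL
  have hERB := tERB tHRQ tSGI (tTWB (tTWY tTWI)) hHRG tPSI
  have hMLM := tMLM tSEQ (tGLM tSGI hALM hERB) tSGI tCRD
  exact ⟨hMLM, tMIN hMLM tRTL⟩

end Pool.Agent.RRG
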