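import Pool.Agent.RRG.St

/-!
# RRG, module DCL: the Gaussian limits of four integrals (helper69)
-/

set_option autoImplicit false

open Finset MeasureTheory Filter Topology

namespace Pool.Agent.RRG

private lemma DCL_int1 : Integrable (fun x : ℝ => Real.exp (-(x ^ 2 / 2))) volume := by
  have h := integrable_exp_neg_mul_sq (b := 1 / 2) (by norm_num)
  refine h.congr (Eventually.of_forall fun x => ?_)
  change Real.exp (-(1 / 2) * x ^ 2) = Real.exp (-(x ^ 2 / 2))
  congr 1
  ring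

private lemma DCL_intc1 {c : ℝ} (hc : 0 < c) :
    Integrable (fun x : ℝ => Real.exp (-(c * x ^ 2))) volume := by
  have h := integrable_exp_neg_mul_sq hc
  refine h.congr (Eventually.of_forall fun x => ?_)
  change Real.exp (-c * x ^ 2) = Real.exp (-(c * x ^ 2))
  congr 1
  ring

private lemma DCL_intc2 {c : ℝ} (hc : 0 < c) :
    Integrable (fun x : ℝ => x ^ 2 * Real.exp (-(c * x ^ 2))) volume := by
  have h := integrable_rpow_mul_exp_neg_mul_sq hc (s := 2) (by norm_num)
  refine h.congr (Eventually.of_forall fun x => ?_)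
  change x ^ (2 : ℝ) * Real.exp (-c * x ^ 2) = x ^ 2 * Real.exp (-(c * x ^ 2))
  rw [Real.rpow_two, neg_mul]

private lemma DCL_intx : Integrable (fun x : ℝ => x * Real.exp (-(x ^ 2 / 2))) volume := by
  have h := integrable_mul_exp_neg_mul_sq (b := 1 / 2) (by norm_num)
  refine h.congr (Eventually.of_forall fun x => ?_)
  change x * Real.exp (-(1 / 2) * x ^ 2) = x * Real.exp (-(x ^ 2 / 2))
  congr 2
  ring

private lemma DCL_intxx : Integrable (fun x : ℝ => x ^ 2 * Real.exp (-(x ^ 2 / 2))) volume := by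
  have h := DCL_intc2 (c := 1 / 2) (by norm_num)
  refine h.congr (Eventually.of_forall fun x => ?_)
  change x ^ 2 * Real.exp (-(1 / 2 * x ^ 2)) = x ^ 2 * Real.exp (-(x ^ 2 / 2))
  congr 2
  ring

private lemma DCL_G0 : ∫ x : ℝ, Real.exp (-(x ^ 2 / 2)) = √(2 * Real.pi) := by
  have h := integral_gaussian (1 / 2)
  have e : (fun x : ℝ => Real.exp (-(1 / 2) * x ^ 2)) = fun x : ℝ => Real.exp (-(x ^ 2 / 2)) := by
    funext x
    congr 1
    ring
  rw [e] at h
  rw [h]
  congr 1
  ring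

private lemma DCL_der (x : ℝ) :
    HasDerivAt (fun y : ℝ => Real.exp (-(y ^ 2 / 2))) (-(x * Real.exp (-(x ^ 2 / 2)))) x := by
  have h1 : HasDerivAt (fun y : ℝ => -(y ^ 2 / 2)) (-x) x := by
    have h := ((hasDerivAt_pow 2 x).div_const 2).neg
    have e : -((2 : ℕ) * x ^ (2 - 1) / 2) = -x := by
      norm_num
    rw [e] at h
    exact h
  have h2 := h1.exp
  have e : Real.exp (-(x ^ 2 / 2)) * -x = -(x * Real.exp (-(x ^ 2 / 2))) := by ring
  rw [e] at h2
  exact h2

private lemma DCL_G1 : ∫ x : ℝ, x * Real.exp (-(x ^ 2 / 2)) = 0 := by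
  have h := integral_eq_zero_of_hasDerivAt_of_integrable (fun x => DCL_der x) DCL_intx.neg
    DCL_int1
  have e : ∫ x : ℝ, -(x * Real.exp (-(x ^ 2 / 2))) = -∫ x : ℝ, x * Real.exp (-(x ^ 2 / 2)) :=
    integral_neg _
  rw [e] at h
  linarith

private lemma DCL_G2 : ∫ x : ℝ, Real.exp (-(x ^ 2 / 2)) * (x ^ 2 / 2) = √(2 * Real.pi) / 2 := by
  have hd : ∀ x : ℝ, HasDerivAt (fun y : ℝ => y * Real.exp (-(y ^ 2 / 2)))
      (Real.exp (-(x ^ 2 / 2)) - x ^ 2 * Real.exp (-(x ^ 2 / 2))) x := by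
    intro x
    have h := (hasDerivAt_id x).mul (DCL_der x)
    have e : 1 * Real.exp (-(x ^ 2 / 2)) + id x * -(x * Real.exp (-(x ^ 2 / 2))) =
        Real.exp (-(x ^ 2 / 2)) - x ^ 2 * Real.exp (-(x ^ 2 / 2)) := by
      simp only [id]
      ring
    rw [e] at h
    exact h
  have h := integral_eq_zero_of_hasDerivAt_of_integrable hd (DCL_int1.sub DCL_intxx) DCL_intx
  have e : ∫ x : ℝ, (Real.exp (-(x ^ 2 / 2)) - x ^ 2 * Real.exp (-(x ^ 2 / 2))) =
      (∫ x : ℝ, Real.exp (-(x ^ 2 / 2))) - ∫ x : ℝ, x ^ 2 * Real.exp (-(x ^ 2 / 2)) :=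
    integral_sub DCL_int1 DCL_intxx
  rw [e, DCL_G0] at h
  have e2 : ∫ x : ℝ, Real.exp (-(x ^ 2 / 2)) * (x ^ 2 / 2) =
      (∫ x : ℝ, x ^ 2 * Real.exp (-(x ^ 2 / 2))) / 2 := by
    rw [← integral_div]
    refine integral_congr_ae (Eventually.of_forall fun x => ?_)
    simp only
    ring
  rw [e2]
  linarith

private lemma DCL_sin (x : ℝ) : Real.sin x = x * Real.sinc x := by
  rcases eq_or_ne x 0 with h | h
  · rw [h, Real.sin_zero, zero_mul]
  · rw [Real.sinc_of_ne_zero h]
    field_simp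

private lemma DCL_cos (x : ℝ) : 1 - Real.cos x = x ^ 2 / 2 * Real.sinc (x / 2) ^ 2 := by
  have h1 : Real.cos x = 1 - 2 * Real.sin (x / 2) ^ 2 := by
    have h := Real.cos_two_mul (x / 2)
    rw [show 2 * (x / 2) = x by ring] at h
    have h2 := Real.sin_sq_add_cos_sq (x / 2)
    rw [h]
    linarith
  rw [h1, DCL_sin (x / 2)]
  ring

/-- the general limit -/
private lemma DCL_gen (σ : ℕ → ℝ) (g : ℕ → ℝ → ℂ) (C c : ℝ) (hc : 0 < c)
    (hσ : Tendsto σ atTop atTop) (hg : ∀ᶠ i in atTop, Continuous (g i))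
    (hb : ∀ᶠ i in atTop, ∀ t : ℝ, |t| ≤ Real.pi →
      ‖g i t‖ ≤ C * Real.exp (-(c * σ i ^ 2 * t ^ 2)))
    (hl : ∀ τ : ℝ, Tendsto (fun i => g i (τ / σ i)) atTop
      (𝓝 ((Real.exp (-(τ ^ 2 / 2)) : ℝ) : ℂ)))
    (q : ℕ → ℝ → ℝ) (Q : ℝ → ℝ) (hq : ∀ i, Continuous (q i))
    (hqb : ∀ᶠ i in atTop, ∀ τ : ℝ, |q i (τ / σ i)| ≤ 1 + τ ^ 2)
    (hql : ∀ τ : ℝ, Tendsto (fun i => q i (τ / σ i)) atTop (𝓝 (Q τ))) :
    Tendsto (fun i => (σ i : ℂ) * ∫ t in (-Real.pi)..Real.pi, g i t * (q i t : ℂ)) atTop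
      (𝓝 ((∫ τ : ℝ, Real.exp (-(τ ^ 2 / 2)) * Q τ : ℝ) : ℂ)) := by
  have hpos : ∀ᶠ i in atTop, 0 < σ i := hσ.eventually_gt_atTop 0
  have hpi := Real.pi_pos
  have key : Tendsto (fun i => ∫ τ : ℝ, (Set.Ioc (-(Real.pi * σ i)) (Real.pi * σ i)).indicator
      (fun τ => g i (τ / σ i) * (q i (τ / σ i) : ℂ)) τ) atTop
      (𝓝 (∫ τ : ℝ, ((Real.exp (-(τ ^ 2 / 2)) * Q τ : ℝ) : ℂ))) := by
    refine tendsto_integral_filter_of_dominated_convergence
      (fun τ => |C| * Real.exp (-(c * τ ^ 2)) + |C| * (τ ^ 2 * Real.exp (-(c * τ ^ 2))))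
      ?_ ?_ ?_ ?_
    · filter_upwards [hg] with i hi
      refine AEStronglyMeasurable.indicator ?_ measurableSet_Ioc
      refine Continuous.aestronglyMeasurable ?_
      exact (hi.comp (continuous_id.div_const _)).mul
        (Complex.continuous_ofReal.comp ((hq i).comp (continuous_id.div_const _)))
    · filter_upwards [hpos, hb, hqb] with i hi hbi hqi
      refine Eventually.of_forall fun τ => ?_
      have h0 : 0 ≤ |C| * Real.exp (-(c * τ ^ 2)) + |C| * (τ ^ 2 * Real.exp (-(c * τ ^ 2))) := by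
        positivity
      by_cases hτ : τ ∈ Set.Ioc (-(Real.pi * σ i)) (Real.pi * σ i)
      · rw [Set.indicator_of_mem hτ, norm_mul]
        have h1 : |τ / σ i| ≤ Real.pi := by
          rw [abs_div, abs_of_pos hi, div_le_iff₀ hi]
          exact abs_le.2 ⟨hτ.1.le, hτ.2⟩
        have h2 := hbi (τ / σ i) h1
        have e : c * σ i ^ 2 * (τ / σ i) ^ 2 = c * τ ^ 2 := by
          field_simp
        rw [e] at h2
        have h3 : ‖(q i (τ / σ i) : ℂ)‖ ≤ 1 + τ ^ 2 := by
          rw [Complex.norm_real, Real.norm_eq_abs]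
          exact hqi τ
        have h4 : ‖g i (τ / σ i)‖ ≤ |C| * Real.exp (-(c * τ ^ 2)) :=
          h2.trans (mul_le_mul_of_nonneg_right (le_abs_self C) (Real.exp_pos _).le)
        calc ‖g i (τ / σ i)‖ * ‖(q i (τ / σ i) : ℂ)‖
            ≤ (|C| * Real.exp (-(c * τ ^ 2))) * (1 + τ ^ 2) := by
              refine mul_le_mul h4 h3 (norm_nonneg _) (by positivity)
          _ = |C| * Real.exp (-(c * τ ^ 2)) + |C| * (τ ^ 2 * Real.exp (-(c * τ ^ 2))) := by
              ring
      · rw [Set.indicator_of_notMem hτ, norm_zero]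
        exact h0
    · exact ((DCL_intc1 hc).const_mul |C|).add ((DCL_intc2 hc).const_mul |C|)
    · refine Eventually.of_forall fun τ => ?_
      have h1 : Tendsto (fun i => g i (τ / σ i) * (q i (τ / σ i) : ℂ)) atTop
          (𝓝 ((Real.exp (-(τ ^ 2 / 2)) * Q τ : ℝ) : ℂ)) := by
        rw [Complex.ofReal_mul]
        exact (hl τ).mul ((Complex.continuous_ofReal.tendsto _).comp (hql τ))
      refine h1.congr' ?_
      filter_upwards [hσ.eventually_gt_atTop (|τ| / Real.pi)] with i hi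
      have h2 : |τ| < Real.pi * σ i := by
        rw [div_lt_iff₀ hpi] at hi
        linarith
      have h3 : τ ∈ Set.Ioc (-(Real.pi * σ i)) (Real.pi * σ i) :=
        ⟨(abs_lt.1 h2).1, (abs_lt.1 h2).2.le⟩
      rw [Set.indicator_of_mem h3]
  have ekey : ∫ τ : ℝ, ((Real.exp (-(τ ^ 2 / 2)) * Q τ : ℝ) : ℂ) =
      ((∫ τ : ℝ, Real.exp (-(τ ^ 2 / 2)) * Q τ : ℝ) : ℂ) :=
    integral_ofReal (𝕜 := ℂ) (f := fun τ : ℝ => Real.exp (-(τ ^ 2 / 2)) * Q τ)
  rw [ekey] at key
  refine key.congr' ?_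
  filter_upwards [hpos] with i hi
  rw [integral_indicator measurableSet_Ioc,
    ← intervalIntegral.integral_of_le (by nlinarith : -(Real.pi * σ i) ≤ Real.pi * σ i)]
  rw [intervalIntegral.integral_comp_div (fun t => g i t * (q i t : ℂ)) hi.ne']
  have e1 : -(Real.pi * σ i) / σ i = -Real.pi := by field_simp
  have e2 : Real.pi * σ i / σ i = Real.pi := by field_simp
  rw [e1, e2, Complex.real_smul]

theorem thm_DCL : St_DCL := by
  intro σ g C c hc hσ hg hb hl
  have hz : ∀ τ : ℝ, Tendsto (fun i => τ / σ i) atTop (𝓝 0) := fun τ => hσ.const_div_atTop τ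
  have hpos : ∀ᶠ i in atTop, 0 < σ i := hσ.eventually_gt_atTop 0
  have hG := DCL_gen σ g C c hc hσ hg hb hl
  have hsc : ∀ τ : ℝ, Tendsto (fun i => Real.sinc (τ / σ i)) atTop (𝓝 1) := by
    intro τ
    have h := (Real.continuous_sinc.tendsto 0).comp (hz τ)
    rw [Real.sinc_zero] at h
    exact h
  refine ⟨?_, ?_, ?_, ?_⟩
  · have h := hG (fun _ _ => 1) (fun _ => 1) (fun _ => continuous_const)
      (Eventually.of_forall fun i τ => by
        rw [abs_one]
        nlinarith [sq_nonneg τ]) (fun τ => tendsto_const_nhds)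
    simp only [Complex.ofReal_one, mul_one] at h
    rw [DCL_G0] at h
    exact h
  · have h := hG (fun _ t => Real.cos t) (fun _ => 1) (fun _ => Real.continuous_cos)
      (Eventually.of_forall fun i τ => by
        have := Real.abs_cos_le_one (τ / σ i)
        nlinarith [sq_nonneg τ]) (fun τ => by
        have h := (Real.continuous_cos.tendsto 0).comp (hz τ)
        rw [Real.cos_zero] at h
        exact h)
    simp only [mul_one] at h
    rw [DCL_G0] at h
    exact h
  · have h := hG (fun i t => σ i ^ 2 * (1 - Real.cos t)) (fun τ => τ ^ 2 / 2)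
      (fun i => continuous_const.mul (continuous_const.sub Real.continuous_cos)) (by
        filter_upwards [hpos] with i hi τ
        have h1 : σ i ^ 2 * (1 - Real.cos (τ / σ i)) ≤ τ ^ 2 / 2 := by
          have h := Real.one_sub_sq_div_two_le_cos (x := τ / σ i)
          have h2 : 1 - Real.cos (τ / σ i) ≤ (τ / σ i) ^ 2 / 2 := by linarith
          have h3 := mul_le_mul_of_nonneg_left h2 (sq_nonneg (σ i))
          have e : σ i ^ 2 * ((τ / σ i) ^ 2 / 2) = τ ^ 2 / 2 := by field_simp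
          rw [e] at h3
          exact h3
        have h0 : 0 ≤ σ i ^ 2 * (1 - Real.cos (τ / σ i)) := by
          have := Real.cos_le_one (τ / σ i)
          exact mul_nonneg (sq_nonneg _) (by linarith)
        rw [abs_of_nonneg h0]
        nlinarith [sq_nonneg τ]) (fun τ => by
        have h1 : Tendsto (fun i => τ ^ 2 / 2 * Real.sinc (τ / 2 / σ i) ^ 2) atTop
            (𝓝 (τ ^ 2 / 2 * 1 ^ 2)) := ((hsc (τ / 2)).pow 2).const_mul _
        rw [one_pow, mul_one] at h1
        refine h1.congr' ?_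
        filter_upwards [hpos] with i hi
        rw [DCL_cos, show τ / σ i / 2 = τ / 2 / σ i by ring]
        field_simp)
    rw [DCL_G2] at h
    refine h.congr' (Eventually.of_forall fun i => ?_)
    have e : ∀ t : ℝ, g i t * ((σ i ^ 2 * (1 - Real.cos t) : ℝ) : ℂ) =
        (σ i : ℂ) ^ 2 * (g i t * (1 - (Real.cos t : ℂ))) := by
      intro t
      push_cast
      ring
    simp only [e]
    rw [intervalIntegral.integral_const_mul]
    ring
  · have h := hG (fun i t => σ i * Real.sin t) (fun τ => τ)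
      (fun i => continuous_const.mul Real.continuous_sin) (by
        filter_upwards [hpos] with i hi τ
        have h1 : |σ i * Real.sin (τ / σ i)| ≤ |τ| := by
          rw [abs_mul, abs_of_pos hi]
          have h := Real.abs_sin_le_abs (x := τ / σ i)
          rw [abs_div, abs_of_pos hi] at h
          calc σ i * |Real.sin (τ / σ i)| ≤ σ i * (|τ| / σ i) :=
                mul_le_mul_of_nonneg_left h hi.le
            _ = |τ| := by field_simp
        have h2 : |τ| ≤ 1 + τ ^ 2 := by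
          nlinarith [sq_nonneg (|τ| - 1), sq_abs τ, abs_nonneg τ]
        exact h1.trans h2) (fun τ => by
        have h1 : Tendsto (fun i => τ * Real.sinc (τ / σ i)) atTop (𝓝 (τ * 1)) :=
          (hsc τ).const_mul _
        rw [mul_one] at h1
        refine h1.congr' ?_
        filter_upwards [hpos] with i hi
        rw [DCL_sin]
        field_simp)
    have e0 : ∫ τ : ℝ, Real.exp (-(τ ^ 2 / 2)) * τ = 0 := by
      rw [← DCL_G1]
      refine integral_congr_ae (Eventually.of_forall fun x => ?_)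
      simp only
      ring
    rw [e0, Complex.ofReal_zero] at h
    refine h.congr' (Eventually.of_forall fun i => ?_)
    have e : ∀ t : ℝ, g i t * ((σ i * Real.sin t : ℝ) : ℂ) =
        (σ i : ℂ) * (g i t * (Real.sin t : ℂ)) := by
      intro t
      push_cast
      ring
    simp only [e]
    rw [intervalIntegral.integral_const_mul]
    ring

end Pool.Agent.RRG
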