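import Pool.Agent.RRG.St

/-!
# RRG, FOE: the integral formula for the coefficients
-/

set_option autoImplicit false

open Finset MeasureTheory Filter Topology

namespace Pool.Agent.RRG

open Pool.Agent.Helper51.RT

theorem FOE_cont (n : ℕ) : Continuous (hh n) := by
  induction n using Nat.strong_induction_on with
  | _ n ih =>
    rcases n with _ | _ | n
    · have e : hh 0 = fun _ => 1 := by funext w; rw [hh]
      rw [e]
      exact continuous_const
    · have e : hh (0 + 1) = fun w => w := by funext w; rw [hh]
      rw [e]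
      exact continuous_id
    · have e : hh (n + 1 + 1) = fun w => w * hh (n + 1) w + ((n : ℂ) + 1) * hh n w := by
        funext w; rw [hh]
      rw [e]
      exact (continuous_id.mul (ih (n + 1) (by omega))).add
        (continuous_const.mul (ih n (by omega)))

theorem FOE_wv_cont (θ : ℝ) : Continuous (wv θ) := by
  unfold wv
  exact continuous_const.add (continuous_const.mul (Complex.continuous_sinh.comp
    (continuous_const.add (Complex.continuous_ofReal.mul continuous_const))))

/-- orthogonality of the exponentials -/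
theorem FOE_orth (k : ℤ) : ∫ t in (-Real.pi)..Real.pi, Complex.exp (-((k : ℂ) * t * Complex.I)) =
    if k = 0 then 2 * Real.pi else 0 := by
  by_cases hk : k = 0
  · rw [if_pos hk, hk]
    simp
    ring
  · rw [if_neg hk]
    have hkC : (k : ℂ) ≠ 0 := by exact_mod_cast hk
    have hc : -((k : ℂ) * Complex.I) ≠ 0 := neg_ne_zero.2 (mul_ne_zero hkC Complex.I_ne_zero)
    have h1 : ∀ t : ℝ, Complex.exp (-((k : ℂ) * t * Complex.I)) =
        Complex.exp (-((k : ℂ) * Complex.I) * t) := fun t => by
      congr 1
      ring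
    simp only [h1]
    rw [integral_exp_mul_complex hc]
    have h2 : -((k : ℂ) * Complex.I) * (Real.pi : ℝ) =
        -((k : ℂ) * Complex.I) * ((-Real.pi : ℝ) : ℂ) + ((-k : ℤ) : ℂ) * (2 * Real.pi * Complex.I) := by
      push_cast
      ring
    have h3 : Complex.exp (-((k : ℂ) * Complex.I) * (Real.pi : ℝ)) =
        Complex.exp (-((k : ℂ) * Complex.I) * ((-Real.pi : ℝ) : ℂ)) := by
      rw [h2, Complex.exp_add, Complex.exp_int_mul_two_pi_mul_I, mul_one]
    rw [h3, sub_self, zero_div, Complex.ofReal_zero]

/-- the product with `1 + 2 sinh` shifts the coefficients -/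
theorem FOE_step (θ : ℝ) (f : ℝ → ℂ) (hf : Continuous f) (e : ℤ → ℝ)
    (h : ∀ k : ℤ, ((2 * Real.pi * e k * Real.exp (k * θ) : ℝ) : ℂ) =
      ∫ t in (-Real.pi)..Real.pi, f t * Complex.exp (-((k : ℂ) * t * Complex.I))) (k : ℤ) :
    ∫ t in (-Real.pi)..Real.pi, wv θ t * f t * Complex.exp (-((k : ℂ) * t * Complex.I)) =
      ((2 * Real.pi * (e k + e (k - 1) - e (k + 1)) * Real.exp (k * θ) : ℝ) : ℂ) := by
  have hc : ∀ j : ℤ, Continuous fun t : ℝ => f t * Complex.exp (-((j : ℂ) * t * Complex.I)) := by
    intro j
    exact hf.mul (Complex.continuous_exp.comp (continuous_neg.comp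
      ((continuous_const.mul Complex.continuous_ofReal).mul continuous_const)))
  have h1 : ∀ t : ℝ, wv θ t * f t * Complex.exp (-((k : ℂ) * t * Complex.I)) =
      f t * Complex.exp (-((k : ℂ) * t * Complex.I)) +
        Complex.exp θ * (f t * Complex.exp (-(((k - 1 : ℤ) : ℂ) * t * Complex.I))) -
        Complex.exp (-θ) * (f t * Complex.exp (-(((k + 1 : ℤ) : ℂ) * t * Complex.I))) := by
    intro t
    have e1 : Complex.exp θ * Complex.exp (-(((k - 1 : ℤ) : ℂ) * t * Complex.I)) =
        Complex.exp ((θ : ℂ) + t * Complex.I) * Complex.exp (-((k : ℂ) * t * Complex.I)) := by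
      rw [← Complex.exp_add, ← Complex.exp_add]
      congr 1
      push_cast
      ring
    have e2 : Complex.exp (-θ) * Complex.exp (-(((k + 1 : ℤ) : ℂ) * t * Complex.I)) =
        Complex.exp (-((θ : ℂ) + t * Complex.I)) * Complex.exp (-((k : ℂ) * t * Complex.I)) := by
      rw [← Complex.exp_add, ← Complex.exp_add]
      congr 1
      push_cast
      ring
    have e3 : wv θ t = 1 + (Complex.exp ((θ : ℂ) + t * Complex.I) -
        Complex.exp (-((θ : ℂ) + t * Complex.I))) := by
      unfold wv
      rw [Complex.sinh]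
      ring
    rw [e3]
    linear_combination (-f t) * e1 + f t * e2
  simp only [h1]
  have i0 := (hc k).intervalIntegrable (μ := volume) (-Real.pi) Real.pi
  have i1 : IntervalIntegrable (fun t : ℝ => Complex.exp θ *
      (f t * Complex.exp (-(((k - 1 : ℤ) : ℂ) * t * Complex.I)))) volume (-Real.pi) Real.pi :=
    (continuous_const.mul (hc (k - 1))).intervalIntegrable _ _
  have i2 : IntervalIntegrable (fun t : ℝ => Complex.exp (-θ) *
      (f t * Complex.exp (-(((k + 1 : ℤ) : ℂ) * t * Complex.I)))) volume (-Real.pi) Real.pi :=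
    (continuous_const.mul (hc (k + 1))).intervalIntegrable _ _
  rw [intervalIntegral.integral_sub (i0.add i1) i2, intervalIntegral.integral_add i0 i1,
    intervalIntegral.integral_const_mul, intervalIntegral.integral_const_mul, ← h k, ← h (k - 1),
    ← h (k + 1)]
  have g1 : Real.exp θ * Real.exp (((k - 1 : ℤ) : ℝ) * θ) = Real.exp (k * θ) := by
    rw [← Real.exp_add]
    congr 1
    push_cast
    ring
  have g2 : Real.exp (-θ) * Real.exp (((k + 1 : ℤ) : ℝ) * θ) = Real.exp (k * θ) := by
    rw [← Real.exp_add]
    congr 1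
    push_cast
    ring
  have c1 : Complex.exp θ = ((Real.exp θ : ℝ) : ℂ) := (Complex.ofReal_exp θ).symm
  have c2 : Complex.exp (-θ) = ((Real.exp (-θ) : ℝ) : ℂ) := by
    rw [Complex.ofReal_exp, Complex.ofReal_neg]
  rw [c1, c2, ← Complex.ofReal_mul, ← Complex.ofReal_mul, ← Complex.ofReal_add,
    ← Complex.ofReal_sub]
  congr 1
  linear_combination (2 * Real.pi * e (k - 1)) * g1 - (2 * Real.pi * e (k + 1)) * g2

theorem thm_FOE : St_FOE := by
  intro θ n
  induction n using Nat.strong_induction_on with
  | _ n ih =>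
    intro k
    rcases n with _ | _ | n
    · have h1 : ∀ t : ℝ, hh 0 (wv θ t) * Complex.exp (-((k : ℂ) * t * Complex.I)) =
          Complex.exp (-((k : ℂ) * t * Complex.I)) := fun t => by
        rw [hh, one_mul]
      simp only [h1]
      rw [FOE_orth, E_zero]
      split_ifs with hk
      · rw [hk]
        simp
      · simp
    · have h0 := FOE_step θ (fun t => hh 0 (wv θ t)) ((FOE_cont 0).comp (FOE_wv_cont θ)) (E 0)
        (ih 0 (by omega)) k
      have h1 : ∀ t : ℝ, hh (0 + 1) (wv θ t) = wv θ t * hh 0 (wv θ t) := fun t => by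
        rw [hh, hh, mul_one]
      simp only [h1]
      rw [h0, zero_add, E_one]
    · have h0 := FOE_step θ (fun t => hh (n + 1) (wv θ t)) ((FOE_cont (n + 1)).comp (FOE_wv_cont θ))
        (E (n + 1)) (ih (n + 1) (by omega)) k
      have h2 := ih n (by omega) k
      have h1 : ∀ t : ℝ, hh (n + 1 + 1) (wv θ t) * Complex.exp (-((k : ℂ) * t * Complex.I)) =
          wv θ t * hh (n + 1) (wv θ t) * Complex.exp (-((k : ℂ) * t * Complex.I)) +
            ((n : ℂ) + 1) * (hh n (wv θ t) * Complex.exp (-((k : ℂ) * t * Complex.I))) := fun t => by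
        rw [hh]
        ring
      have hce : Continuous fun t : ℝ => Complex.exp (-((k : ℂ) * t * Complex.I)) :=
        Complex.continuous_exp.comp (continuous_neg.comp
          ((continuous_const.mul Complex.continuous_ofReal).mul continuous_const))
      have i1 : IntervalIntegrable (fun t : ℝ => wv θ t * hh (n + 1) (wv θ t) *
          Complex.exp (-((k : ℂ) * t * Complex.I))) volume (-Real.pi) Real.pi :=
        (((FOE_wv_cont θ).mul ((FOE_cont (n + 1)).comp (FOE_wv_cont θ))).mul hce).intervalIntegrable
          _ _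
      have i2 : IntervalIntegrable (fun t : ℝ => ((n : ℂ) + 1) * (hh n (wv θ t) *
          Complex.exp (-((k : ℂ) * t * Complex.I)))) volume (-Real.pi) Real.pi :=
        (continuous_const.mul (((FOE_cont n).comp (FOE_wv_cont θ)).mul hce)).intervalIntegrable _ _
      simp only [h1]
      rw [intervalIntegral.integral_add i1 i2, intervalIntegral.integral_const_mul, h0, ← h2]
      rw [E_add_two]
      push_cast
      ring

end Pool.Agent.RRG
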