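import Pool.Agent.RRG.St

/-!
# RRG, GDO: the Gaussian majorant of the normalized integrand (helper23)
-/

set_option autoImplicit false

open Finset MeasureTheory Filter Topology

namespace Pool.Agent.RRG

open Pool.Agent.Helper51.RT

private theorem GDO_wv (θ t : ℝ) : wv θ t =
    ((1 + 2 * Real.sinh θ * Real.cos t : ℝ) : ℂ) + ((2 * Real.cosh θ * Real.sin t : ℝ) : ℂ) * Complex.I := by
  unfold wv
  rw [Complex.sinh_add, Complex.sinh_mul_I, Complex.cosh_mul_I]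
  push_cast
  ring

private theorem GDO_dn_re (θ t : ℝ) : (dn θ t).re = 1 + Real.exp (-θ) * Real.cos t := by
  unfold dn
  rw [Complex.add_re, Complex.one_re, Complex.exp_re]
  simp

private theorem GDO_dn_norm (θ t : ℝ) : 1 - Real.exp (-θ) ≤ ‖dn θ t‖ := by
  unfold dn
  have h1 : ‖Complex.exp (-((θ : ℂ) + t * Complex.I))‖ = Real.exp (-θ) := by
    rw [Complex.norm_exp]
    simp
  have h2 := norm_sub_norm_le (1 : ℂ) (-Complex.exp (-((θ : ℂ) + t * Complex.I)))
  rw [norm_neg, h1, norm_one, sub_neg_eq_add] at h2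
  exact h2

/-- the exponent -/
private theorem GDO_exp {a W c s u : ℝ} (ha : 0 ≤ a) (haW : a ≤ W) (hW : 1 ≤ W) (hs : 0 ≤ s)
    (hc1 : -1 ≤ c) (hc2 : c ≤ 1) (hu : u = 1 + a * c) :
    s * a * (1 - c) / W ≤ s * (1 + a - |u|) := by
  have hW0 : 0 < W := by linarith
  have h1 : s * a * (1 - c) / W = s * (a * (1 - c) / W) := by ring
  rw [h1]
  refine mul_le_mul_of_nonneg_left ?_ hs
  rw [div_le_iff₀ hW0]
  have h2 : 0 ≤ a * (1 - c) := mul_nonneg ha (by linarith)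
  rcases abs_cases u with ⟨h, -⟩ | ⟨h, -⟩
  · rw [h, hu]
    have h3 : 1 + a - (1 + a * c) = a * (1 - c) := by ring
    rw [h3]
    exact le_mul_of_one_le_right h2 hW
  · rw [h, hu]
    have h3 : 2 ≤ 1 + a - -(1 + a * c) := by nlinarith
    have h4 : a * (1 - c) ≤ 2 * W := by nlinarith
    nlinarith

/-- the factor with the denominator -/
private theorem GDO_den {θ Θ W s E t : ℝ} (hθ : 0 < θ) (hΘ : θ ≤ Θ) (hW : 1 ≤ W) (hs : 0 ≤ s)
    (hs3 : 1 ≤ s * θ ^ 3) (ht : |t| ≤ Real.pi) (hE : E = s * (2 * Real.sinh θ) * t ^ 2 / (Real.pi ^ 2 * W)) :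
    Real.exp (-E) * ((1 + Real.exp (-θ)) / ‖dn θ t‖) ≤ 2 + 2 * (1 + Θ) * W := by
  have hsinh : θ ≤ Real.sinh θ := Real.self_le_sinh_iff.2 hθ.le
  have hpi := Real.pi_pos
  have hE0 : 0 ≤ E := by
    rw [hE]
    have : 0 ≤ Real.sinh θ := by linarith
    positivity
  have he1 : Real.exp (-θ) < 1 := by
    rw [Real.exp_lt_one_iff]
    linarith
  have he0 := Real.exp_pos (-θ)
  have hexpE : Real.exp (-E) ≤ 1 := Real.exp_le_one_iff.2 (by linarith)
  have hΘW : 0 ≤ (1 + Θ) * W := by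
    have : 0 < Θ := by linarith
    positivity
  rcases le_total |t| (Real.pi / 2) with h | h
  · have hcos : 0 ≤ Real.cos t := Real.cos_nonneg_of_mem_Icc ⟨by linarith [abs_le.1 h], by linarith [abs_le.1 h]⟩
    have h1 : 1 ≤ ‖dn θ t‖ := by
      have h2 := Complex.re_le_norm (dn θ t)
      rw [GDO_dn_re] at h2
      have := mul_nonneg he0.le hcos
      linarith
    have h2 : (1 + Real.exp (-θ)) / ‖dn θ t‖ ≤ 2 := by
      rw [div_le_iff₀ (by linarith)]
      linarith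
    have h3 : 0 ≤ (1 + Real.exp (-θ)) / ‖dn θ t‖ := by positivity
    calc Real.exp (-E) * ((1 + Real.exp (-θ)) / ‖dn θ t‖) ≤ 1 * 2 :=
          mul_le_mul hexpE h2 h3 zero_le_one
      _ ≤ 2 + 2 * (1 + Θ) * W := by linarith
  · have hd : θ / (1 + θ) ≤ ‖dn θ t‖ := by
      refine le_trans ?_ (GDO_dn_norm θ t)
      have h1 : Real.exp (-θ) ≤ 1 / (1 + θ) := by
        rw [Real.exp_neg, ← one_div]
        exact one_div_le_one_div_of_le (by linarith) (by linarith [Real.add_one_le_exp θ])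
      have h2 : θ / (1 + θ) = 1 - 1 / (1 + θ) := by
        field_simp
        ring
      rw [h2]
      linarith
    have hd0 : 0 < θ / (1 + θ) := by positivity
    have h2 : (1 + Real.exp (-θ)) / ‖dn θ t‖ ≤ 2 * (1 + Θ) * (1 / θ) := by
      calc (1 + Real.exp (-θ)) / ‖dn θ t‖ ≤ 2 / (θ / (1 + θ)) :=
            div_le_div₀ (by norm_num) (by linarith) hd0 hd
        _ = 2 * (1 + θ) * (1 / θ) := by
            field_simp
        _ ≤ 2 * (1 + Θ) * (1 / θ) := by
            have : 0 ≤ 1 / θ := by positivity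
            exact mul_le_mul_of_nonneg_right (by linarith) this
    -- the exponential
    have ht2 : Real.pi ^ 2 / 4 ≤ t ^ 2 := by
      rw [← sq_abs t]
      nlinarith
    have hE1 : 1 / (2 * W) * (1 / θ) ^ 2 ≤ E := by
      have h3 : (1 / θ) ^ 2 ≤ s * θ := by
        rw [div_pow, one_pow, div_le_iff₀ (by positivity)]
        calc (1 : ℝ) ≤ s * θ ^ 3 := hs3
          _ = s * θ * θ ^ 2 := by ring
      have h4 : s * θ ≤ s * Real.sinh θ := mul_le_mul_of_nonneg_left hsinh hs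
      have h5 : 1 / (2 * W) * (1 / θ) ^ 2 ≤ 1 / (2 * W) * (s * Real.sinh θ) :=
        mul_le_mul_of_nonneg_left (h3.trans h4) (by positivity)
      refine h5.trans ?_
      have h6 : 0 ≤ s * (2 * Real.sinh θ) := mul_nonneg hs (by linarith)
      have h7 : s * (2 * Real.sinh θ) * (Real.pi ^ 2 / 4) ≤ s * (2 * Real.sinh θ) * t ^ 2 :=
        mul_le_mul_of_nonneg_left ht2 h6
      rw [hE, le_div_iff₀ (by positivity)]
      calc 1 / (2 * W) * (s * Real.sinh θ) * (Real.pi ^ 2 * W) = s * (2 * Real.sinh θ) * (Real.pi ^ 2 / 4) := by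
            field_simp
            ring
        _ ≤ _ := h7
    have hx : Real.exp (-E) * (1 / θ) ≤ W := by
      have h3 : 1 + 1 / (2 * W) * (1 / θ) ^ 2 ≤ Real.exp E := by linarith [Real.add_one_le_exp E]
      have h4 : 1 / θ ≤ W * (1 + 1 / (2 * W) * (1 / θ) ^ 2) := by
        have h5 : W * (1 + 1 / (2 * W) * (1 / θ) ^ 2) = W + (1 / θ) ^ 2 / 2 := by
          field_simp
        rw [h5]
        nlinarith [sq_nonneg (1 / θ - 1)]
      have h6 : 1 / θ ≤ W * Real.exp E := h4.trans (mul_le_mul_of_nonneg_left h3 (by linarith))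
      rw [Real.exp_neg, inv_mul_le_iff₀ (Real.exp_pos E)]
      linarith
    have hΘ0 : 0 ≤ 2 * (1 + Θ) := by linarith
    calc Real.exp (-E) * ((1 + Real.exp (-θ)) / ‖dn θ t‖) ≤ Real.exp (-E) * (2 * (1 + Θ) * (1 / θ)) :=
          mul_le_mul_of_nonneg_left h2 (Real.exp_pos _).le
      _ = 2 * (1 + Θ) * (Real.exp (-E) * (1 / θ)) := by ring
      _ ≤ 2 * (1 + Θ) * W := mul_le_mul_of_nonneg_left hx hΘ0
      _ ≤ 2 + 2 * (1 + Θ) * W := by linarith

theorem thm_GDO (hSGI : St_SGI) (hHRQ : St_HRQ) (hDOM : St_DOM) : St_GDO := by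
  intro Θ n k θ hSq
  have hSGI' := (hSGI Θ n k θ hSq).2.2.2
  obtain ⟨h1, h2⟩ := hSq
  set W : ℝ := 1 + 2 * |Real.sinh Θ| with hWdef
  have hW : 1 ≤ W := by
    have := abs_nonneg (Real.sinh Θ)
    linarith
  obtain ⟨C₀, hC₀, hD⟩ := hDOM W (2 * Real.cosh Θ)
  have hpi := Real.pi_pos
  refine ⟨C₀ * (2 + 2 * (1 + Θ) * W), 1 / (Real.pi ^ 2 * W), by positivity, ?_⟩
  filter_upwards [h1, h2.eventually_ge_atTop 1, hSGI'] with i hi hi3 hsg t ht
  obtain ⟨hn, hθ, hΘ, hk⟩ := hi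
  obtain ⟨-, hsg2, -⟩ := hsg
  set T := θ i with hT
  have hsinh0 : 0 < Real.sinh T := Real.sinh_pos_iff.2 hθ
  have hsinhΘ : Real.sinh T ≤ |Real.sinh Θ| := (Real.sinh_le_sinh.2 hΘ).trans (le_abs_self _)
  have haW : 2 * Real.sinh T ≤ W := by linarith
  have hw1 : 1 ≤ w0 T := by
    unfold w0
    linarith
  have hw2 : w0 T ≤ W := by
    unfold w0
    linarith
  have hc1 := Real.neg_one_le_cos t
  have hc2 := Real.cos_le_one t
  have hu : |1 + 2 * Real.sinh T * Real.cos t| ≤ w0 T := by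
    unfold w0
    rw [abs_le]
    constructor <;> nlinarith
  have hv : |2 * Real.cosh T * Real.sin t| ≤ 2 * Real.cosh Θ := by
    have h3 : Real.cosh T ≤ Real.cosh Θ := by
      rw [Real.cosh_le_cosh, abs_of_pos hθ, abs_of_pos (by linarith)]
      exact hΘ
    have h4 : |Real.sin t| ≤ 1 := Real.abs_sin_le_one t
    have h5 : 0 < Real.cosh T := Real.cosh_pos T
    rw [abs_mul, abs_of_pos (by positivity : 0 < 2 * Real.cosh T)]
    nlinarith [abs_nonneg (Real.sin t)]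
  have hhr := (hHRQ (n i) (w0 T) hw1).1
  have hmain := hD (n i) (w0 T) _ _ hw1 hw2 hu hv
  rw [← GDO_wv] at hmain
  have hs0 : 0 ≤ √(n i : ℝ) := Real.sqrt_nonneg _
  set E : ℝ := √(n i : ℝ) * (2 * Real.sinh T) * t ^ 2 / (Real.pi ^ 2 * W) with hE
  have hexp : 2 * E ≤ √(n i : ℝ) * (w0 T - |1 + 2 * Real.sinh T * Real.cos t|) := by
    have h3 := GDO_exp (a := 2 * Real.sinh T) (W := W) (c := Real.cos t) (s := √(n i : ℝ)) (by linarith) haW hW
      hs0 hc1 hc2 rfl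
    refine le_trans ?_ h3
    have h4 := Real.cos_le_one_sub_mul_cos_sq ht
    have h5 : 2 / Real.pi ^ 2 * t ^ 2 ≤ 1 - Real.cos t := by linarith
    have h6 : 0 ≤ √(n i : ℝ) * (2 * Real.sinh T) := mul_nonneg hs0 (by linarith)
    have h7 : √(n i : ℝ) * (2 * Real.sinh T) * (2 / Real.pi ^ 2 * t ^ 2) ≤
      √(n i : ℝ) * (2 * Real.sinh T) * (1 - Real.cos t) := mul_le_mul_of_nonneg_left h5 h6
    have hW0 : 0 < W := by linarith
    rw [le_div_iff₀ hW0]
    refine le_trans (le_of_eq ?_) h7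
    rw [hE]
    field_simp
  have hnorm : ‖gg (n i) (k i) T t‖ = ‖hh (n i) (wv T t)‖ / hr (n i) (w0 T) *
      ((1 + Real.exp (-T)) / ‖dn T t‖) := by
    unfold gg
    rw [norm_mul, norm_mul, norm_div, norm_div, Complex.norm_real, Complex.norm_real,
      Real.norm_of_nonneg hhr.le, Real.norm_of_nonneg (by positivity : 0 ≤ 1 + Real.exp (-T)), Complex.norm_exp]
    have h3 : (-((k i : ℂ) * t * Complex.I)).re = 0 := by simp
    rw [h3, Real.exp_zero, mul_one]
  rw [hnorm]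
  have hq : ‖hh (n i) (wv T t)‖ / hr (n i) (w0 T) ≤ C₀ * (Real.exp (-E) * Real.exp (-E)) := by
    rw [div_le_iff₀ hhr]
    calc ‖hh (n i) (wv T t)‖ ≤ _ := hmain
      _ ≤ C₀ * hr (n i) (w0 T) * (Real.exp (-E) * Real.exp (-E)) := by
        refine mul_le_mul_of_nonneg_left ?_ (by positivity)
        rw [← Real.exp_add]
        exact Real.exp_le_exp.2 (by linarith)
      _ = _ := by ring
  have hden := GDO_den (θ := T) (Θ := Θ) (W := W) (s := √(n i : ℝ)) (E := E) (t := t) hθ hΘ hW hs0 hi3 ht rfl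
  have hEE : 1 / (Real.pi ^ 2 * W) * sg (n i) T ^ 2 * t ^ 2 = E := by
    rw [hsg2, hE]
    ring
  rw [hEE]
  have hp : 0 ≤ (1 + Real.exp (-T)) / ‖dn T t‖ := by positivity
  calc ‖hh (n i) (wv T t)‖ / hr (n i) (w0 T) * ((1 + Real.exp (-T)) / ‖dn T t‖)
      ≤ C₀ * (Real.exp (-E) * Real.exp (-E)) * ((1 + Real.exp (-T)) / ‖dn T t‖) :=
        mul_le_mul_of_nonneg_right hq hp
    _ = C₀ * (Real.exp (-E) * ((1 + Real.exp (-T)) / ‖dn T t‖)) * Real.exp (-E) := by ring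
    _ ≤ C₀ * (2 + 2 * (1 + Θ) * W) * Real.exp (-E) := by
        refine mul_le_mul_of_nonneg_right ?_ (Real.exp_pos _).le
        exact mul_le_mul_of_nonneg_left hden hC₀.le

end Pool.Agent.RRG
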