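import Pool.Agent.RRG.St

/-!
# RRG: bounds for the majorant `GG` (`St_GGB`)
-/

set_option autoImplicit false

open Finset MeasureTheory Filter Topology

namespace Pool.Agent.RRG

open Pool.Agent.Helper51.RT

private lemma ggb_sq (n : ℕ) : √((n : ℝ) + 1 / 2) ^ 2 = (n : ℝ) + 1 / 2 :=
  Real.sq_sqrt (by positivity)

private lemma ggb_fr_nonneg (hHHB : St_HHB) (n : ℕ) {u : ℝ} (hu : 0 ≤ u) : 0 ≤ fr n u := by
  unfold fr
  exact mul_nonneg (Real.exp_pos _).le (hHHB.2.2.2.2.2.2.1 n u hu)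

private lemma ggb_fr1_nonneg (hHHB : St_HHB) (n : ℕ) {u : ℝ} (hu : 0 ≤ u) : 0 ≤ fr1 n u := by
  unfold fr1
  have h := hHHB.2.2.2.2.2.2.1
  have h1 := h n u hu
  have h2 := h (n - 1) u hu
  positivity

private lemma ggb_mono (hHHB : St_HHB) (hODE : St_ODE) (n : ℕ) :
    MonotoneOn (fun u => GG n u * Real.exp (-(√((n : ℝ) + 1 / 2) * u))) (Set.Ici 0) := by
  set c := √((n : ℝ) + 1 / 2) with hc
  have hd : ∀ u : ℝ, HasDerivAt (fun u => GG n u * Real.exp (-(c * u)))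
      (u ^ 2 / 4 * fr n u * Real.exp (-(c * u))) u := by
    intro u
    obtain ⟨h1, h2⟩ := hODE.2 n u
    have h3 : HasDerivAt (GG n) (((n : ℝ) + 1 / 2 + u ^ 2 / 4) * fr n u + c * fr1 n u) u :=
      h2.add (h1.const_mul c)
    have h4 : HasDerivAt (fun u : ℝ => Real.exp (-(c * u))) (Real.exp (-(c * u)) * (-(c * 1))) u :=
      (((hasDerivAt_id u).const_mul c).neg).exp
    refine (h3.mul h4).congr_deriv ?_
    have h5 : c ^ 2 = (n : ℝ) + 1 / 2 := ggb_sq n
    have h6 : GG n u = fr1 n u + c * fr n u := rfl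
    rw [h6, ← h5]
    ring
  refine monotoneOn_of_deriv_nonneg (convex_Ici 0)
    (fun u _ => (hd u).continuousAt.continuousWithinAt)
    (fun u _ => (hd u).differentiableAt.differentiableWithinAt) fun u hu => ?_
  rw [interior_Ici, Set.mem_Ioi] at hu
  rw [(hd u).deriv]
  have := ggb_fr_nonneg hHHB n hu.le
  positivity

private lemma ggb_up (hHRQ : St_HRQ) (n : ℕ) {u : ℝ} (hu : 1 ≤ u) :
    (n : ℝ) * hr (n - 1) u ≤ √(n : ℝ) * hr n u := by
  rcases n with _ | m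
  · simp
  · have h := (hHRQ m u hu).2.1
    have h1 : √(((m + 1 : ℕ)) : ℝ) = √((m : ℝ) + 1) := by push_cast; rfl
    rw [h1]
    have h2 : ((m + 1 : ℕ) : ℝ) = √((m : ℝ) + 1) * √((m : ℝ) + 1) := by
      rw [Real.mul_self_sqrt (by positivity)]; push_cast; rfl
    rw [h2, mul_assoc]
    exact mul_le_mul_of_nonneg_left h (Real.sqrt_nonneg _)

private lemma ggb_lo (hHRQ : St_HRQ) (n : ℕ) {u : ℝ} (hu : 1 ≤ u) :
    (√(n : ℝ) - u) * hr n u ≤ (n : ℝ) * hr (n - 1) u := by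
  rcases n with _ | m
  · have h0 := (hHRQ 0 u hu).1
    simp only [Nat.cast_zero, Real.sqrt_zero, zero_sub, zero_mul]
    nlinarith
  · obtain ⟨h0, -, h⟩ := hHRQ m u hu
    have h1 : √(((m + 1 : ℕ)) : ℝ) = √((m : ℝ) + 1) := by push_cast; rfl
    have h2 : √(m : ℝ) ≤ √((m : ℝ) + 1) := Real.sqrt_le_sqrt (by linarith)
    have h3 : √((m : ℝ) + 1) ^ 2 = (m : ℝ) + 1 := Real.sq_sqrt (by positivity)
    rw [h1, Nat.add_sub_cancel]
    push_cast
    have h4 : 0 < hr (m + 1) u := (hHRQ (m + 1) u hu).1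
    set r := √((m : ℝ) + 1) with hr'
    have hr0 : 0 ≤ r := Real.sqrt_nonneg _
    have h5 : hr (m + 1) u ≤ (u + r) * hr m u := h.trans (by gcongr)
    rcases le_total r u with h6 | h6
    · have h7 : (r - u) * hr (m + 1) u ≤ 0 := mul_nonpos_of_nonpos_of_nonneg (by linarith) h4.le
      have h8 : 0 ≤ ((m : ℝ) + 1) * hr m u := by positivity
      linarith
    · calc (r - u) * hr (m + 1) u ≤ (r - u) * ((u + r) * hr m u) :=
            mul_le_mul_of_nonneg_left h5 (by linarith)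
        _ = (r ^ 2 - u ^ 2) * hr m u := by ring
        _ ≤ ((m : ℝ) + 1) * hr m u := by
            rw [h3]
            refine mul_le_mul_of_nonneg_right ?_ h0.le
            nlinarith

private lemma ggb_sqrt (n : ℕ) : √(n : ℝ) ≤ √((n : ℝ) + 1 / 2) ∧
    √((n : ℝ) + 1 / 2) ≤ √(n : ℝ) + 1 := by
  refine ⟨Real.sqrt_le_sqrt (by linarith), ?_⟩
  rw [Real.sqrt_le_left (by positivity)]
  have h1 : √(n : ℝ) ^ 2 = n := Real.sq_sqrt (by positivity)
  nlinarith [Real.sqrt_nonneg (n : ℝ)]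

private lemma ggb_par (hHHB : St_HHB) (n : ℕ) (u : ℝ) :
    fr n (-u) = (-1) ^ n * fr n u ∧ fr1 n (-u) = -((-1) ^ n * fr1 n u) := by
  have hp := hHHB.2.2.2.2.2.2.2
  have h1 : (n : ℝ) * hr (n - 1) (-u) = -((-1) ^ n * ((n : ℝ) * hr (n - 1) u)) := by
    rcases n with _ | m
    · simp
    · rw [hp, Nat.add_sub_cancel, pow_succ]
      ring
  refine ⟨?_, ?_⟩
  · unfold fr
    rw [hp, neg_sq]
    ring
  · unfold fr1
    rw [h1, hp, neg_sq]
    ring

/-- **GGB** -/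
theorem thm_GGB (hHHB : St_HHB) (hODE : St_ODE) (hHRQ : St_HRQ) : St_GGB := by
  refine ⟨?_, ?_, ?_, ?_⟩
  · intro n u v hu huv
    have h := ggb_mono hHHB hODE n (Set.mem_Ici.2 hu) (Set.mem_Ici.2 (hu.trans huv)) huv
    simp only at h
    set c := √((n : ℝ) + 1 / 2) with hc
    have h1 : GG n u = GG n u * Real.exp (-(c * u)) * Real.exp (c * u) := by
      rw [mul_assoc, ← Real.exp_add]; simp
    have h2 : Real.exp (-(c * (v - u))) * GG n v = GG n v * Real.exp (-(c * v)) * Real.exp (c * u) := by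
      rw [mul_assoc, ← Real.exp_add, mul_comm]
      congr 2
      ring
    rw [h1, h2]
    exact mul_le_mul_of_nonneg_right h (Real.exp_pos _).le
  · intro n u hu
    have h1 := ggb_up hHRQ n hu
    have h2 := (ggb_sqrt n).1
    have h3 := (hHRQ n u hu).1
    have he := Real.exp_pos (u ^ 2 / 4)
    have h4 : √(n : ℝ) * hr n u ≤ √((n : ℝ) + 1 / 2) * hr n u := by gcongr
    have h5 : Real.exp (u ^ 2 / 4) * ((n : ℝ) * hr (n - 1) u) ≤
        Real.exp (u ^ 2 / 4) * (√((n : ℝ) + 1 / 2) * hr n u) :=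
      mul_le_mul_of_nonneg_left (h1.trans h4) he.le
    unfold GG fr1 fr
    linarith
  · intro n u hu
    have h1 := ggb_up hHRQ n hu
    have h1' := ggb_lo hHRQ n hu
    obtain ⟨h2, h2'⟩ := ggb_sqrt n
    have h3 := (hHRQ n u hu).1
    have he := Real.exp_pos (u ^ 2 / 4)
    have h4 : √(n : ℝ) * hr n u ≤ √((n : ℝ) + 1 / 2) * hr n u := by gcongr
    have h4' : √((n : ℝ) + 1 / 2) * hr n u ≤ (√(n : ℝ) + 1) * hr n u := by gcongr
    have h5 : (n : ℝ) * hr (n - 1) u + u / 2 * hr n u - √((n : ℝ) + 1 / 2) * hr n u ≤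
        (u / 2 + 1) * hr n u := by linarith
    have h6 : -((u / 2 + 1) * hr n u) ≤
        (n : ℝ) * hr (n - 1) u + u / 2 * hr n u - √((n : ℝ) + 1 / 2) * hr n u := by linarith
    have h7 : fr1 n u - √((n : ℝ) + 1 / 2) * fr n u = Real.exp (u ^ 2 / 4) *
        ((n : ℝ) * hr (n - 1) u + u / 2 * hr n u - √((n : ℝ) + 1 / 2) * hr n u) := by
      unfold fr1 fr; ring
    have h8 : (u / 2 + 1) * fr n u = Real.exp (u ^ 2 / 4) * ((u / 2 + 1) * hr n u) := by
      unfold fr; ring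
    rw [h7, h8, abs_mul, abs_of_pos he]
    exact mul_le_mul_of_nonneg_left (abs_le.2 ⟨h6, h5⟩) he.le
  · intro n u
    have h1 : |fr n u| = fr n |u| ∧ |fr1 n u| = fr1 n |u| := by
      rcases le_total 0 u with h | h
      · rw [abs_of_nonneg h, abs_of_nonneg (ggb_fr_nonneg hHHB n h),
          abs_of_nonneg (ggb_fr1_nonneg hHHB n h)]
        exact ⟨rfl, rfl⟩
      · have h2 : u = -(-u) := by ring
        have h3 : 0 ≤ -u := by linarith
        have h4 := ggb_par hHHB n (-u)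
        rw [← h2] at h4
        rw [abs_of_nonpos h, h4.1, h4.2, abs_neg, abs_mul, abs_mul, abs_pow, abs_neg, abs_one,
          one_pow, one_mul, one_mul, abs_of_nonneg (ggb_fr_nonneg hHHB n h3),
          abs_of_nonneg (ggb_fr1_nonneg hHHB n h3)]
        exact ⟨rfl, rfl⟩
    rw [h1.1, h1.2]
    rfl

end Pool.Agent.RRG
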