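import Pool.Agent.RRG.St

/-!
# RRG, module GLM: from the alternating sums to the numbers of tableaux
-/

set_option autoImplicit false

open Finset MeasureTheory Filter Topology

namespace Pool.Agent.RRG

open Pool.Agent.Helper51.RT

/-- a null sequence times a bounded one -/
theorem GLM_bz {a b : ℕ → ℝ} (ha : Tendsto a atTop (𝓝 0)) {B : ℝ} (hb : ∀ᶠ i in atTop, |b i| ≤ B) :
    Tendsto (fun i => a i * b i) atTop (𝓝 0) := by
  have h1 : Tendsto (fun i => |a i| * B) atTop (𝓝 0) := by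
    have := ha.abs.mul_const B
    simpa using this
  refine squeeze_zero_norm' ?_ h1
  filter_upwards [hb] with i hi
  rw [Real.norm_eq_abs, abs_mul]
  exact mul_le_mul_of_nonneg_left hi (abs_nonneg _)

theorem GLM_core {s A0 A1 A2 G0 G1 G2 B T θ : ℕ → ℝ} {Θ : ℝ} (hs : ∀ᶠ i in atTop, 1 ≤ s i)
    (h0 : ∀ᶠ i in atTop, |G0 i - A0 i| ≤ T i) (h1 : ∀ᶠ i in atTop, |G1 i - A1 i| ≤ T i)
    (h2 : ∀ᶠ i in atTop, |G2 i - A2 i| ≤ T i)
    (hT : Tendsto (fun i => s i * (T i / B i)) atTop (𝓝 0))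
    (hA1 : Tendsto (fun i => A1 i / B i) atTop (𝓝 √(2 * Real.pi)))
    (hA2 : Tendsto (fun i => A2 i * Real.exp (θ i) / B i) atTop (𝓝 √(2 * Real.pi)))
    (hA0 : Tendsto (fun i => A0 i * Real.exp (-θ i) / B i) atTop (𝓝 √(2 * Real.pi)))
    (h4 : Tendsto (fun i => s i * (1 - A0 i * A2 i / A1 i ^ 2)) atTop (𝓝 1))
    (hθ : ∀ᶠ i in atTop, 0 < θ i ∧ θ i ≤ Θ) :
    (∀ᶠ i in atTop, G1 i ≠ 0) ∧
      Tendsto (fun i => s i * (1 - G0 i * G2 i / G1 i ^ 2)) atTop (𝓝 1) := by
  have hc0 : 0 < √(2 * Real.pi) := Real.sqrt_pos.2 (by positivity)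
  set c : ℝ := √(2 * Real.pi) with hc
  have hB : ∀ᶠ i in atTop, B i ≠ 0 := by
    have h := hA1.eventually_ne hc0.ne'
    filter_upwards [h] with i hi hb
    rw [hb, div_zero] at hi
    exact hi rfl
  -- differences
  have dif : ∀ {G A : ℕ → ℝ}, (∀ᶠ i in atTop, |G i - A i| ≤ T i) →
      Tendsto (fun i => s i * (G i / B i - A i / B i)) atTop (𝓝 0) := by
    intro G A h
    have hT' := hT.abs
    rw [abs_zero] at hT'
    refine squeeze_zero_norm' ?_ hT'
    filter_upwards [h, hs] with i hi hsi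
    rw [Real.norm_eq_abs, ← sub_div, abs_mul, abs_mul, abs_div, abs_div]
    refine mul_le_mul_of_nonneg_left ?_ (abs_nonneg _)
    refine div_le_div_of_nonneg_right ?_ (abs_nonneg _)
    exact hi.trans (le_abs_self _)
  have d0 := dif h0
  have d1 := dif h1
  have d2 := dif h2
  have small : ∀ {u : ℕ → ℝ}, Tendsto (fun i => s i * u i) atTop (𝓝 0) →
      Tendsto u atTop (𝓝 0) := by
    intro u hu
    have hu' := hu.abs
    rw [abs_zero] at hu'
    refine squeeze_zero_norm' ?_ hu'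
    filter_upwards [hs] with i hi
    rw [Real.norm_eq_abs, abs_mul, abs_of_nonneg (by linarith : (0 : ℝ) ≤ s i)]
    nlinarith [abs_nonneg (u i)]
  -- the limit of the middle term
  have y1 : Tendsto (fun i => G1 i / B i) atTop (𝓝 c) := by
    have h := (small d1).add hA1
    rw [zero_add] at h
    refine h.congr fun i => ?_
    ring
  -- bounds
  have b1x : ∀ᶠ i in atTop, |A1 i / B i| ≤ c + 1 := by
    have h := hA1.abs.eventually_lt_const (show |c| < c + 1 by rw [abs_of_pos hc0]; linarith)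
    filter_upwards [h] with i hi
    exact hi.le
  have b1y : ∀ᶠ i in atTop, |G1 i / B i| ≤ c + 1 := by
    have h := y1.abs.eventually_lt_const (show |c| < c + 1 by rw [abs_of_pos hc0]; linarith)
    filter_upwards [h] with i hi
    exact hi.le
  have b0 : ∀ᶠ i in atTop, |A0 i / B i| ≤ (c + 1) * Real.exp Θ := by
    have h := hA0.abs.eventually_lt_const (show |c| < c + 1 by rw [abs_of_pos hc0]; linarith)
    filter_upwards [h, hθ] with i hi hti
    have e : A0 i / B i = A0 i * Real.exp (-θ i) / B i * Real.exp (θ i) := by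
      rw [Real.exp_neg]
      have := (Real.exp_pos (θ i)).ne'
      field_simp
    rw [e, abs_mul, Real.abs_exp]
    exact mul_le_mul hi.le (Real.exp_le_exp.2 hti.2) (Real.exp_pos _).le (by linarith)
  have b2 : ∀ᶠ i in atTop, |A2 i / B i| ≤ c + 1 := by
    have h := hA2.abs.eventually_lt_const (show |c| < c + 1 by rw [abs_of_pos hc0]; linarith)
    filter_upwards [h, hθ] with i hi hti
    have e : A2 i / B i = A2 i * Real.exp (θ i) / B i * Real.exp (-θ i) := by
      rw [Real.exp_neg]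
      have := (Real.exp_pos (θ i)).ne'
      field_simp
    rw [e, abs_mul, Real.abs_exp]
    have h5 : Real.exp (-θ i) ≤ 1 := Real.exp_le_one_iff.2 (by linarith [hti.1])
    calc |A2 i * Real.exp (θ i) / B i| * Real.exp (-θ i) ≤ (c + 1) * 1 :=
          mul_le_mul hi.le h5 (Real.exp_pos _).le (by linarith)
      _ = c + 1 := mul_one _
  have b2y : ∀ᶠ i in atTop, |G2 i / B i| ≤ c + 2 := by
    have h := (small d2).abs.eventually_lt_const (show |(0 : ℝ)| < 1 by norm_num)
    filter_upwards [h, b2] with i hi hj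
    have e : G2 i / B i = (G2 i / B i - A2 i / B i) + A2 i / B i := by ring
    rw [e]
    refine (abs_add_le _ _).trans ?_
    linarith
  -- the main difference
  have m1 : Tendsto (fun i => s i * (G1 i / B i - A1 i / B i) * (G1 i / B i + A1 i / B i)) atTop
      (𝓝 0) := by
    refine GLM_bz d1 (B := 2 * (c + 1)) ?_
    filter_upwards [b1x, b1y] with i hi hj
    refine (abs_add_le _ _).trans ?_
    linarith
  have m2 : Tendsto (fun i => s i * (G0 i / B i - A0 i / B i) * (G2 i / B i)) atTop (𝓝 0) :=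
    GLM_bz d0 b2y
  have m3 : Tendsto (fun i => s i * (G2 i / B i - A2 i / B i) * (A0 i / B i)) atTop (𝓝 0) :=
    GLM_bz d2 b0
  have hx : Tendsto (fun i => s i * ((A1 i / B i) ^ 2 - A0 i / B i * (A2 i / B i))) atTop
      (𝓝 (c ^ 2 * 1)) := by
    refine ((hA1.pow 2).mul h4).congr' ?_
    filter_upwards [hB, hA1.eventually_ne hc0.ne'] with i hb ha
    have ha1 : A1 i ≠ 0 := by
      intro h
      rw [h, zero_div] at ha
      exact ha rfl
    field_simp
  have hy : Tendsto (fun i => s i * ((G1 i / B i) ^ 2 - G0 i / B i * (G2 i / B i))) atTop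
      (𝓝 (c ^ 2 * 1)) := by
    have h := ((hx.add m1).sub m2).sub m3
    rw [add_zero, sub_zero, sub_zero] at h
    refine h.congr fun i => ?_
    ring
  have hne : ∀ᶠ i in atTop, G1 i ≠ 0 := by
    filter_upwards [y1.eventually_ne hc0.ne'] with i ha h
    rw [h, zero_div] at ha
    exact ha rfl
  refine ⟨hne, ?_⟩
  have hq := hy.div (y1.pow 2) (pow_ne_zero 2 hc0.ne')
  rw [mul_one, div_self (pow_ne_zero 2 hc0.ne')] at hq
  refine hq.congr' ?_
  filter_upwards [hB, hne] with i hb hg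
  simp only [Pi.div_apply]
  field_simp

theorem thm_GLM (hSGI : St_SGI) (hALM : St_ALM) (hERB : St_ERB) : St_GLM := by
  intro Θ n k θ hSq hlog
  obtain ⟨g1, g2, g3, g4⟩ := hSGI Θ n k θ hSq
  obtain ⟨a1, a2, a3, a4⟩ := hALM Θ n k θ hSq
  have e := hERB Θ n k θ hSq hlog
  have hs : ∀ᶠ i in atTop, 1 ≤ sg (n i) (θ i) ^ 2 := by
    filter_upwards [g1.eventually_ge_atTop 1] with i hi
    nlinarith
  have hk : ∀ᶠ i in atTop, 1 ≤ k i := g3.eventually_ge_atTop 1
  obtain ⟨r1, r2⟩ := GLM_core (s := fun i => sg (n i) (θ i) ^ 2)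
    (A0 := fun i => A (n i) (k i - 1)) (A1 := fun i => A (n i) (k i))
    (A2 := fun i => A (n i) (k i + 1)) (G0 := fun i => (grow (n i) (k i - 1) : ℝ))
    (G1 := fun i => (grow (n i) (k i) : ℝ)) (G2 := fun i => (grow (n i) (k i + 1) : ℝ))
    (B := fun i => Bn (n i) (k i) (θ i)) (T := fun i => (two (n i) (k i) : ℝ)) (θ := θ) (Θ := Θ)
    hs (by
      filter_upwards [hk] with i hi
      exact grow_sub_A (by omega))
    (Eventually.of_forall fun i => grow_sub_A (by omega))
    (Eventually.of_forall fun i => grow_sub_A (by omega)) e a1 a2 a3 a4 (by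
      filter_upwards [hSq.1] with i hi
      exact ⟨hi.2.1, hi.2.2.1⟩)
  refine ⟨?_, r2⟩
  filter_upwards [r1] with i hi
  exact Nat.pos_of_ne_zero (by exact_mod_cast hi)

end Pool.Agent.RRG
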