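import Pool.Agent.RRG.St

/-!
RRG, GPW: the pointwise limit of the normalized integrand at the saddle point.
-/

set_option autoImplicit false

open Finset MeasureTheory Filter Topology

namespace Pool.Agent.RRG

/-- the shift of the argument -/
private noncomputable def GPW_d (θ t : ℝ) : ℂ :=
  ((2 * Real.sinh θ * (Real.cos t - 1) : ℝ) : ℂ) +
    ((2 * Real.cosh θ * Real.sin t : ℝ) : ℂ) * Complex.I

private theorem GPW_re (θ t : ℝ) : (GPW_d θ t).re = 2 * Real.sinh θ * (Real.cos t - 1) := by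
  unfold GPW_d
  rw [Complex.add_re, Complex.ofReal_re, Complex.re_ofReal_mul, Complex.I_re, mul_zero, add_zero]

private theorem GPW_wv (θ t : ℝ) : wv θ t = (w0 θ : ℂ) + GPW_d θ t := by
  unfold wv w0 GPW_d
  rw [Complex.sinh_add, Complex.cosh_mul_I, Complex.sinh_mul_I]
  push_cast
  ring

private theorem GPW_norm {θ t Θ : ℝ} (h0 : 0 < θ) (h1 : θ ≤ Θ) :
    ‖GPW_d θ t‖ ≤ Real.sinh Θ * t ^ 2 + 2 * Real.cosh Θ * |t| := by
  unfold GPW_d
  refine (norm_add_le _ _).trans (add_le_add ?_ ?_)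
  · rw [Complex.norm_real, Real.norm_eq_abs, abs_mul, abs_mul, abs_of_pos (by norm_num : (0:ℝ) < 2),
      abs_of_pos (Real.sinh_pos_iff.2 h0)]
    have h2 := Real.one_sub_sq_div_two_le_cos (x := t)
    have h3 := Real.cos_le_one t
    have h4 : |Real.cos t - 1| ≤ t ^ 2 / 2 := by
      rw [abs_le]
      constructor <;> nlinarith [sq_nonneg t]
    have h5 : Real.sinh θ ≤ Real.sinh Θ := Real.sinh_le_sinh.2 h1
    have h6 : 0 < Real.sinh θ := Real.sinh_pos_iff.2 h0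
    have h7 : 0 < Real.sinh Θ := h6.trans_le h5
    calc 2 * Real.sinh θ * |Real.cos t - 1| ≤ 2 * Real.sinh Θ * (t ^ 2 / 2) := by
          gcongr
      _ = Real.sinh Θ * t ^ 2 := by ring
  · rw [norm_mul, Complex.norm_I, mul_one, Complex.norm_real, Real.norm_eq_abs, abs_mul, abs_mul,
      abs_of_pos (by norm_num : (0:ℝ) < 2), abs_of_pos (Real.cosh_pos θ)]
    have h2 : |Real.sin t| ≤ |t| := Real.abs_sin_le_abs
    have h3 : Real.cosh θ ≤ Real.cosh Θ := by
      rw [Real.cosh_le_cosh, abs_of_pos h0, abs_of_pos (h0.trans_le h1)]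
      exact h1
    have h4 := Real.cosh_pos θ
    gcongr

private theorem GPW_dn (θ t : ℝ) (h0 : 0 < θ) :
    ‖(dn θ t - ((1 + Real.exp (-θ) : ℝ) : ℂ)) / ((1 + Real.exp (-θ) : ℝ) : ℂ)‖ ≤ |t| := by
  have h1 : dn θ t - ((1 + Real.exp (-θ) : ℝ) : ℂ) =
      (Real.exp (-θ) : ℂ) * (Complex.exp (((-t : ℝ) : ℂ) * Complex.I) - 1) := by
    unfold dn
    have h2 : -((θ : ℂ) + t * Complex.I) = ((-θ : ℝ) : ℂ) + ((-t : ℝ) : ℂ) * Complex.I := by
      push_cast
      ring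
    rw [h2, Complex.exp_add]
    push_cast
    ring
  have h3 : ‖Complex.exp (((-t : ℝ) : ℂ) * Complex.I) - 1‖ ≤ |t| := by
    have h4 := Real.norm_exp_I_mul_ofReal_sub_one_le (x := -t)
    rw [mul_comm, Real.norm_eq_abs, abs_neg] at h4
    exact h4
  have h5 : Real.exp (-θ) ≤ 1 := Real.exp_le_one_iff.2 (by linarith)
  have h6 := Real.exp_pos (-θ)
  rw [norm_div, h1, norm_mul, Complex.norm_real, Complex.norm_real, Real.norm_of_nonneg h6.le,
    Real.norm_of_nonneg (by linarith)]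
  rw [div_le_iff₀ (by linarith)]
  have h7 := abs_nonneg t
  calc Real.exp (-θ) * ‖Complex.exp (((-t : ℝ) : ℂ) * Complex.I) - 1‖ ≤ 1 * |t| := by gcongr
    _ ≤ |t| * (1 + Real.exp (-θ)) := by nlinarith

private theorem GPW_cos {s : ℕ → ℝ} (hs : Tendsto s atTop atTop) (τ : ℝ) :
    Tendsto (fun i => s i ^ 2 * (1 - Real.cos (τ / s i))) atTop (𝓝 (τ ^ 2 / 2)) := by
  have ht : Tendsto (fun i => τ / s i) atTop (𝓝 0) := hs.const_div_atTop τ
  rw [tendsto_iff_dist_tendsto_zero]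
  have h1 : ∀ᶠ i in atTop, dist (s i ^ 2 * (1 - Real.cos (τ / s i))) (τ ^ 2 / 2) ≤
      τ ^ 2 * (τ / s i) ^ 2 := by
    have h2 : ∀ᶠ i in atTop, |τ / s i| < 1 := by
      have h3 := ht.abs
      rw [abs_zero] at h3
      exact h3.eventually (gt_mem_nhds one_pos)
    filter_upwards [h2, hs.eventually_gt_atTop 0] with i hi hpos
    have h4 := Real.cos_bound hi.le
    have h5 : τ ^ 2 / 2 = s i ^ 2 * ((τ / s i) ^ 2 / 2) := by
      field_simp
    rw [Real.dist_eq, h5, ← mul_sub, abs_mul, abs_of_pos (by positivity : 0 < s i ^ 2)]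
    have h6 : |1 - Real.cos (τ / s i) - (τ / s i) ^ 2 / 2| ≤ (τ / s i) ^ 4 := by
      rw [show 1 - Real.cos (τ / s i) - (τ / s i) ^ 2 / 2 =
        -(Real.cos (τ / s i) - (1 - (τ / s i) ^ 2 / 2)) by ring, abs_neg]
      refine h4.trans ?_
      rw [show |τ / s i| ^ 4 = (τ / s i) ^ 4 from Even.pow_abs (by decide) _]
      nlinarith [sq_nonneg ((τ / s i) ^ 2)]
    calc s i ^ 2 * |1 - Real.cos (τ / s i) - (τ / s i) ^ 2 / 2| ≤ s i ^ 2 * (τ / s i) ^ 4 := by
          gcongr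
      _ = τ ^ 2 * (τ / s i) ^ 2 := by field_simp
  refine squeeze_zero' (Eventually.of_forall fun _ => dist_nonneg) h1 ?_
  have h7 := (ht.pow 2).const_mul (τ ^ 2)
  simpa using h7

theorem thm_GPW (hSGI : St_SGI) (hPWD : St_PWD) : St_GPW := by
  intro Θ n k θ hS τ
  obtain ⟨hsg, -, -, hev⟩ := hSGI Θ n k θ hS
  obtain ⟨C, hC, hP⟩ := hPWD (1 + 2 * Real.sinh Θ) (τ ^ 2 / 2)
  obtain ⟨hq, hlim⟩ := hS
  obtain ⟨t, ht0⟩ : ∃ t : ℕ → ℝ, t = fun i => τ / sg (n i) (θ i) := ⟨_, rfl⟩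
  have ht : Tendsto t atTop (𝓝 0) := by
    rw [ht0]
    exact hsg.const_div_atTop τ
  have hta : Tendsto (fun i => |t i|) atTop (𝓝 0) := by
    have := ht.abs
    rwa [abs_zero] at this
  have ht1 : ∀ᶠ i in atTop, |t i| < 1 := hta.eventually (gt_mem_nhds one_pos)
  -- the shift tends to zero
  have hbd : Tendsto (fun i => Real.sinh Θ * t i ^ 2 + 2 * Real.cosh Θ * |t i|) atTop (𝓝 0) := by
    have h1 := ((ht.pow 2).const_mul (Real.sinh Θ)).add (hta.const_mul (2 * Real.cosh Θ))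
    simpa using h1
  have hd : Tendsto (fun i => ‖GPW_d (θ i) (t i)‖) atTop (𝓝 0) := by
    refine squeeze_zero' (Eventually.of_forall fun _ => norm_nonneg _) ?_ hbd
    filter_upwards [hq] with i hi
    exact GPW_norm hi.2.1 hi.2.2.1
  have hcos := GPW_cos hsg τ
  -- first factor
  have L1 : Tendsto (fun i => hh (n i) ((w0 (θ i) : ℂ) + GPW_d (θ i) (t i)) /
      (hr (n i) (w0 (θ i)) : ℂ) *
      Complex.exp (-((√(n i : ℝ) : ℝ) * GPW_d (θ i) (t i)))) atTop (𝓝 1) := by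
    rw [tendsto_iff_norm_sub_tendsto_zero]
    have hd' := hd.const_mul C
    rw [mul_zero] at hd'
    refine squeeze_zero' (Eventually.of_forall fun _ => norm_nonneg _) ?_ hd'
    filter_upwards [hq, hev, hd.eventually (gt_mem_nhds one_pos)] with i hi hs hd1
    have hsh : 0 < Real.sinh (θ i) := Real.sinh_pos_iff.2 hi.2.1
    refine hP (n i) (w0 (θ i)) _ ?_ ?_ hd1.le ?_ ?_
    · unfold w0
      linarith
    · unfold w0
      have := Real.sinh_le_sinh.2 hi.2.2.1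
      linarith
    · rw [GPW_re]
      have := Real.cos_le_one (t i)
      nlinarith
    · rw [GPW_re]
      have h1 := Real.one_sub_sq_div_two_le_cos (x := t i)
      have h2 : √(n i : ℝ) * (-(2 * Real.sinh (θ i) * (Real.cos (t i) - 1))) =
          sg (n i) (θ i) ^ 2 * (1 - Real.cos (t i)) := by
        rw [hs.2.1]
        ring
      rw [h2]
      have h3 : τ ^ 2 / 2 = sg (n i) (θ i) ^ 2 * (t i ^ 2 / 2) := by
        rw [ht0]
        have := hs.1.ne'
        field_simp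
      rw [h3]
      have h4 := hs.1
      gcongr
      linarith
  -- second factor, modulus
  have L2 : Tendsto (fun i => (k i : ℝ) * (t i - Real.sin (t i))) atTop (𝓝 0) := by
    have hb : Tendsto (fun i => 2 * Real.cosh Θ * |τ| ^ 3 * √(1 / (8 * (√(n i : ℝ) * θ i ^ 3))))
        atTop (𝓝 0) := by
      have h1 : Tendsto (fun i => 1 / (8 * (√(n i : ℝ) * θ i ^ 3))) atTop (𝓝 0) :=
        (hlim.const_mul_atTop (by norm_num)).const_div_atTop 1
      have h2 := ((Real.continuous_sqrt.tendsto 0).comp h1).const_mul (2 * Real.cosh Θ * |τ| ^ 3)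
      rw [Real.sqrt_zero, mul_zero] at h2
      exact h2
    refine squeeze_zero_norm' ?_ hb
    filter_upwards [hq, hev, ht1] with i hi hs h1
    have hsn : 0 < √(n i : ℝ) := Real.sqrt_pos.2 (by exact_mod_cast hi.1)
    have hθ := hi.2.1
    have hsp := hs.1
    rw [Real.norm_eq_abs, abs_mul, abs_of_nonneg (Nat.cast_nonneg _), hi.2.2.2]
    have h2 : |t i - Real.sin (t i)| ≤ |t i| ^ 3 := by
      have h3 := Real.sin_bound h1.le
      have h4 : |t i - Real.sin (t i)| ≤ |Real.sin (t i) - (t i - t i ^ 3 / 6)| + |t i ^ 3 / 6| := by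
        rw [show t i - Real.sin (t i) = -(Real.sin (t i) - (t i - t i ^ 3 / 6)) + t i ^ 3 / 6 by ring]
        refine (abs_add_le _ _).trans (le_of_eq ?_)
        rw [abs_neg]
      have h5 : |t i ^ 3 / 6| = |t i| ^ 3 / 6 := by
        rw [abs_div, abs_pow, abs_of_pos (by norm_num : (0:ℝ) < 6)]
      have h6 : |t i| ^ 5 ≤ |t i| ^ 3 := pow_le_pow_of_le_one (abs_nonneg _) h1.le (by norm_num)
      have h7 : 0 ≤ |t i| ^ 3 := by positivity
      rw [h5] at h4
      linarith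
    have h3 : Real.cosh (θ i) ≤ Real.cosh Θ := by
      rw [Real.cosh_le_cosh, abs_of_pos hi.2.1, abs_of_pos (hi.2.1.trans_le hi.2.2.1)]
      exact hi.2.2.1
    have h4 : √(n i : ℝ) / sg (n i) (θ i) ^ 3 ≤ √(1 / (8 * (√(n i : ℝ) * θ i ^ 3))) := by
      apply Real.le_sqrt_of_sq_le
      have h5 : 2 * √(n i : ℝ) * θ i ≤ sg (n i) (θ i) ^ 2 := by
        rw [hs.2.1]
        have := Real.self_le_sinh_iff.2 hθ.le
        nlinarith
      have h6 : (2 * √(n i : ℝ) * θ i) ^ 3 ≤ (sg (n i) (θ i) ^ 2) ^ 3 := by gcongr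
      rw [div_pow, div_le_div_iff₀ (by positivity) (by positivity)]
      calc √(n i : ℝ) ^ 2 * (8 * (√(n i : ℝ) * θ i ^ 3)) = (2 * √(n i : ℝ) * θ i) ^ 3 := by ring
        _ ≤ (sg (n i) (θ i) ^ 2) ^ 3 := h6
        _ = 1 * (sg (n i) (θ i) ^ 3) ^ 2 := by ring
    have h5 : |t i| ^ 3 = |τ| ^ 3 / sg (n i) (θ i) ^ 3 := by
      rw [ht0]
      simp only
      rw [abs_div, abs_of_pos hsp, div_pow]
    have h6 : 0 < Real.cosh (θ i) := Real.cosh_pos _
    calc 2 * √(n i : ℝ) * Real.cosh (θ i) * |t i - Real.sin (t i)|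
        ≤ 2 * √(n i : ℝ) * Real.cosh Θ * (|τ| ^ 3 / sg (n i) (θ i) ^ 3) := by
          rw [← h5]
          gcongr
      _ = 2 * Real.cosh Θ * |τ| ^ 3 * (√(n i : ℝ) / sg (n i) (θ i) ^ 3) := by ring
      _ ≤ 2 * Real.cosh Θ * |τ| ^ 3 * √(1 / (8 * (√(n i : ℝ) * θ i ^ 3))) := by
          have h7 : 0 < Real.cosh Θ := Real.cosh_pos _
          gcongr
  have L3 : Tendsto (fun i => Complex.exp
      (((-(sg (n i) (θ i) ^ 2 * (1 - Real.cos (t i))) : ℝ) : ℂ) +
        ((-((k i : ℝ) * (t i - Real.sin (t i))) : ℝ) : ℂ) * Complex.I)) atTop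
      (𝓝 ((Real.exp (-(τ ^ 2 / 2)) : ℝ) : ℂ)) := by
    have h1 : Tendsto (fun i => (((-(sg (n i) (θ i) ^ 2 * (1 - Real.cos (t i))) : ℝ) : ℂ) +
        ((-((k i : ℝ) * (t i - Real.sin (t i))) : ℝ) : ℂ) * Complex.I)) atTop
        (𝓝 (((-(τ ^ 2 / 2) : ℝ) : ℂ) + ((-0 : ℝ) : ℂ) * Complex.I)) := by
      refine ((Complex.continuous_ofReal.tendsto _).comp ?_).add
        (((Complex.continuous_ofReal.tendsto _).comp L2.neg).mul_const _)
      rw [ht0]
      exact hcos.neg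
    have h2 := (Complex.continuous_exp.tendsto _).comp h1
    rw [neg_zero, Complex.ofReal_zero, zero_mul, add_zero, ← Complex.ofReal_exp] at h2
    exact h2
  -- third factor
  have L4 : Tendsto (fun i => ((1 + Real.exp (-θ i) : ℝ) : ℂ) / dn (θ i) (t i)) atTop (𝓝 1) := by
    have h1 : Tendsto (fun i => (dn (θ i) (t i) - ((1 + Real.exp (-θ i) : ℝ) : ℂ)) /
        ((1 + Real.exp (-θ i) : ℝ) : ℂ)) atTop (𝓝 0) := by
      refine squeeze_zero_norm' ?_ hta
      filter_upwards [hq] with i hi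
      exact GPW_dn (θ i) (t i) hi.2.1
    have h2 : Tendsto (fun i => (1 + (dn (θ i) (t i) - ((1 + Real.exp (-θ i) : ℝ) : ℂ)) /
        ((1 + Real.exp (-θ i) : ℝ) : ℂ))⁻¹) atTop (𝓝 1) := by
      have h3 := (h1.const_add 1).inv₀ (by norm_num)
      rw [add_zero, inv_one] at h3
      exact h3
    refine h2.congr fun i => ?_
    have h4 : ((1 + Real.exp (-θ i) : ℝ) : ℂ) ≠ 0 := by
      have := Real.exp_pos (-θ i)
      exact_mod_cast (by linarith : (1 + Real.exp (-θ i)) ≠ 0)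
    rw [← inv_div]
    field_simp
    ring
  have L := (L1.mul L3).mul L4
  rw [one_mul, mul_one] at L
  refine L.congr' ?_
  filter_upwards [hq, hev] with i hi hs
  have ht' : τ / sg (n i) (θ i) = t i := by rw [ht0]
  rw [ht']
  unfold gg
  rw [GPW_wv]
  congr 1
  rw [mul_assoc, ← Complex.exp_add]
  congr 2
  have h1 : ((√(n i : ℝ) : ℝ) : ℂ) * GPW_d (θ i) (t i) =
      ((-(sg (n i) (θ i) ^ 2 * (1 - Real.cos (t i))) : ℝ) : ℂ) +
        (((k i : ℝ) * Real.sin (t i) : ℝ) : ℂ) * Complex.I := by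
    rw [hs.2.1, hi.2.2.2]
    unfold GPW_d
    push_cast
    ring
  rw [h1]
  push_cast
  ring

end Pool.Agent.RRG
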