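import Pool.Agent.RRG.St

/-!
# RRG, module HHB: elementary properties of the polynomials
-/

set_option autoImplicit false

open Finset MeasureTheory Filter Topology

namespace Pool.Agent.RRG

open Pool.Agent.Helper51.RT

private theorem HHB_rec (n : ℕ) (w : ℂ) :
    w * hh n w + (n : ℂ) * hh (n - 1) w = hh (n + 1) w := by
  cases n with
  | zero => simp [hh]
  | succ m =>
    have e : hh (m + 1 + 1) w = w * hh (m + 1) w + ((m : ℂ) + 1) * hh m w := rfl
    rw [e]
    push_cast
    simp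

private theorem HHB_recr (n : ℕ) (w : ℝ) :
    w * hr n w + (n : ℝ) * hr (n - 1) w = hr (n + 1) w := by
  cases n with
  | zero => simp [hr]
  | succ m =>
    have e : hr (m + 1 + 1) w = w * hr (m + 1) w + ((m : ℝ) + 1) * hr m w := rfl
    rw [e]
    push_cast
    simp

private theorem HHB_der (n : ℕ) : (∀ w : ℂ, HasDerivAt (hh n) (n * hh (n - 1) w) w) ∧
    ∀ w : ℂ, HasDerivAt (hh (n + 1)) (((n + 1 : ℕ) : ℂ) * hh n w) w := by
  induction n with
  | zero =>
    constructor
    · intro w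
      have e : hh 0 = fun _ => (1 : ℂ) := by
        funext w
        rfl
      rw [e, Nat.cast_zero, zero_mul]
      exact hasDerivAt_const w (1 : ℂ)
    · intro w
      have e : hh (0 + 1) = fun w : ℂ => w := by
        funext w
        rfl
      have e0 : hh 0 w = 1 := rfl
      rw [e, e0, zero_add, Nat.cast_one, mul_one]
      exact hasDerivAt_id w
  | succ n ih =>
    obtain ⟨h1, h2⟩ := ih
    refine ⟨fun w => by simpa using h2 w, ?_⟩
    intro w
    have e : hh (n + 1 + 1) = fun w : ℂ => w * hh (n + 1) w + ((n : ℂ) + 1) * hh n w := by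
      funext w
      rfl
    rw [e]
    have h3 := ((hasDerivAt_id w).mul (h2 w)).add ((h1 w).const_mul ((n : ℂ) + 1))
    have h4 : HasDerivAt (fun w : ℂ => w * hh (n + 1) w + ((n : ℂ) + 1) * hh n w)
        (1 * hh (n + 1) w + w * (((n + 1 : ℕ) : ℂ) * hh n w) +
          ((n : ℂ) + 1) * (n * hh (n - 1) w)) w := h3
    have h5 := HHB_rec n w
    have h6 : 1 * hh (n + 1) w + w * (((n + 1 : ℕ) : ℂ) * hh n w) +
          ((n : ℂ) + 1) * (n * hh (n - 1) w) = ((n + 1 + 1 : ℕ) : ℂ) * hh (n + 1) w := by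
      push_cast
      rw [← h5]
      ring
    rw [← h6]
    exact h4

private theorem HHB_derr (n : ℕ) : (∀ w : ℝ, HasDerivAt (hr n) (n * hr (n - 1) w) w) ∧
    ∀ w : ℝ, HasDerivAt (hr (n + 1)) (((n + 1 : ℕ) : ℝ) * hr n w) w := by
  induction n with
  | zero =>
    constructor
    · intro w
      have e : hr 0 = fun _ => (1 : ℝ) := by
        funext w
        rfl
      rw [e, Nat.cast_zero, zero_mul]
      exact hasDerivAt_const w (1 : ℝ)
    · intro w
      have e : hr (0 + 1) = fun w : ℝ => w := by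
        funext w
        rfl
      have e0 : hr 0 w = 1 := rfl
      rw [e, e0, zero_add, Nat.cast_one, mul_one]
      exact hasDerivAt_id w
  | succ n ih =>
    obtain ⟨h1, h2⟩ := ih
    refine ⟨fun w => by simpa using h2 w, ?_⟩
    intro w
    have e : hr (n + 1 + 1) = fun w : ℝ => w * hr (n + 1) w + ((n : ℝ) + 1) * hr n w := by
      funext w
      rfl
    rw [e]
    have h3 := ((hasDerivAt_id w).mul (h2 w)).add ((h1 w).const_mul ((n : ℝ) + 1))
    have h4 : HasDerivAt (fun w : ℝ => w * hr (n + 1) w + ((n : ℝ) + 1) * hr n w)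
        (1 * hr (n + 1) w + w * (((n + 1 : ℕ) : ℝ) * hr n w) +
          ((n : ℝ) + 1) * (n * hr (n - 1) w)) w := h3
    have h5 := HHB_recr n w
    have h6 : 1 * hr (n + 1) w + w * (((n + 1 : ℕ) : ℝ) * hr n w) +
          ((n : ℝ) + 1) * (n * hr (n - 1) w) = ((n + 1 + 1 : ℕ) : ℝ) * hr (n + 1) w := by
      push_cast
      rw [← h5]
      ring
    rw [← h6]
    exact h4

private theorem HHB_par (n : ℕ) : (∀ w : ℂ, hh n (-w) = (-1) ^ n * hh n w) ∧
    ∀ w : ℂ, hh (n + 1) (-w) = (-1) ^ (n + 1) * hh (n + 1) w := by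
  induction n with
  | zero =>
    constructor
    · intro w
      have e : ∀ w : ℂ, hh 0 w = 1 := fun _ => rfl
      rw [e, e, pow_zero, one_mul]
    · intro w
      have e : ∀ w : ℂ, hh (0 + 1) w = w := fun _ => rfl
      rw [e, e]
      ring
  | succ n ih =>
    obtain ⟨h1, h2⟩ := ih
    refine ⟨h2, ?_⟩
    intro w
    have e : ∀ w : ℂ, hh (n + 1 + 1) w = w * hh (n + 1) w + ((n : ℂ) + 1) * hh n w :=
      fun _ => rfl
    rw [e, e, h1, h2]
    ring

private theorem HHB_parr (n : ℕ) : (∀ w : ℝ, hr n (-w) = (-1) ^ n * hr n w) ∧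
    ∀ w : ℝ, hr (n + 1) (-w) = (-1) ^ (n + 1) * hr (n + 1) w := by
  induction n with
  | zero =>
    constructor
    · intro w
      have e : ∀ w : ℝ, hr 0 w = 1 := fun _ => rfl
      rw [e, e, pow_zero, one_mul]
    · intro w
      have e : ∀ w : ℝ, hr (0 + 1) w = w := fun _ => rfl
      rw [e, e]
      ring
  | succ n ih =>
    obtain ⟨h1, h2⟩ := ih
    refine ⟨h2, ?_⟩
    intro w
    have e : ∀ w : ℝ, hr (n + 1 + 1) w = w * hr (n + 1) w + ((n : ℝ) + 1) * hr n w :=
      fun _ => rfl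
    rw [e, e, h1, h2]
    ring

private theorem HHB_cast (n : ℕ) : (∀ u : ℝ, hh n (u : ℂ) = (hr n u : ℂ)) ∧
    ∀ u : ℝ, hh (n + 1) (u : ℂ) = (hr (n + 1) u : ℂ) := by
  induction n with
  | zero =>
    constructor
    · intro u
      have e : hh 0 (u : ℂ) = 1 := rfl
      have e' : hr 0 u = 1 := rfl
      rw [e, e']
      simp
    · intro u
      have e : hh (0 + 1) (u : ℂ) = u := rfl
      have e' : hr (0 + 1) u = u := rfl
      rw [e, e']
  | succ n ih =>
    obtain ⟨h1, h2⟩ := ih
    refine ⟨h2, ?_⟩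
    intro u
    have e : hh (n + 1 + 1) (u : ℂ) = u * hh (n + 1) (u : ℂ) + ((n : ℂ) + 1) * hh n (u : ℂ) := rfl
    have e' : hr (n + 1 + 1) u = u * hr (n + 1) u + ((n : ℝ) + 1) * hr n u := rfl
    rw [e, e', h1, h2]
    push_cast
    ring

private theorem HHB_nonneg (n : ℕ) : (∀ u : ℝ, 0 ≤ u → 0 ≤ hr n u) ∧
    ∀ u : ℝ, 0 ≤ u → 0 ≤ hr (n + 1) u := by
  induction n with
  | zero =>
    constructor
    · intro u _
      have e' : hr 0 u = 1 := rfl
      rw [e']
      exact zero_le_one
    · intro u hu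
      have e' : hr (0 + 1) u = u := rfl
      rw [e']
      exact hu
  | succ n ih =>
    obtain ⟨h1, h2⟩ := ih
    refine ⟨h2, ?_⟩
    intro u hu
    have e' : hr (n + 1 + 1) u = u * hr (n + 1) u + ((n : ℝ) + 1) * hr n u := rfl
    rw [e']
    have h3 := h1 u hu
    have h4 := h2 u hu
    positivity

theorem thm_HHB : St_HHB := by
  refine ⟨fun n u => (HHB_cast n).1 u, fun n w => (HHB_der n).1 w, ?_,
    fun n w => (HHB_par n).1 w, fun n u => (HHB_derr n).1 u, ?_,
    fun n u hu => (HHB_nonneg n).1 u hu, fun n u => (HHB_parr n).1 u⟩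
  · intro n w
    cases n with
    | zero => simp
    | succ m =>
      have h := HHB_rec m w
      have e1 : m + 1 - 1 = m := rfl
      have e2 : m + 1 - 2 = m - 1 := rfl
      rw [e1, e2, ← h]
      ring
  · intro n w
    cases n with
    | zero => simp
    | succ m =>
      have h := HHB_recr m w
      have e1 : m + 1 - 1 = m := rfl
      have e2 : m + 1 - 2 = m - 1 := rfl
      rw [e1, e2, ← h]
      ring

end Pool.Agent.RRG
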