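import Pool.Agent.RRG.St

/-!
# [HRG] growth of the polynomials `hr n` on `[1, ∞)`
-/

set_option autoImplicit false

open Finset MeasureTheory Filter Topology

namespace Pool.Agent.RRG

theorem thm_HRG (hHHB : St_HHB) (hHRQ : St_HRQ) : St_HRG := by
  intro n u v hu huv
  obtain ⟨-, -, -, -, hder, -, -, -⟩ := hHHB
  have hg : ∀ x : ℝ, HasDerivAt (fun t => hr n t * Real.exp (-(√(n : ℝ) * t)))
      ((n * hr (n - 1) x - √(n : ℝ) * hr n x) * Real.exp (-(√(n : ℝ) * x))) x := by
    intro x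
    have h1 := (hder n x).mul (((hasDerivAt_id x).const_mul √(n : ℝ)).neg.exp)
    refine h1.congr_deriv ?_
    simp only [id, Pi.neg_apply]
    ring
  have hneg : ∀ x : ℝ, 1 ≤ x → n * hr (n - 1) x - √(n : ℝ) * hr n x ≤ 0 := by
    intro x hx
    rcases n with _ | m
    · simp
    · have h1 := (hHRQ m x hx).2.1
      have h2 : (0 : ℝ) ≤ (m : ℝ) + 1 := by positivity
      have h3 : √((m : ℝ) + 1) * √((m : ℝ) + 1) = (m : ℝ) + 1 := Real.mul_self_sqrt h2
      simp only [Nat.add_sub_cancel, Nat.cast_add, Nat.cast_one]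
      have h4 := mul_le_mul_of_nonneg_left h1 (Real.sqrt_nonneg ((m : ℝ) + 1))
      have h5 : √((m : ℝ) + 1) * (√((m : ℝ) + 1) * hr m x) = ((m : ℝ) + 1) * hr m x := by
        rw [← mul_assoc, h3]
      linarith
  have hanti : AntitoneOn (fun t => hr n t * Real.exp (-(√(n : ℝ) * t))) (Set.Ici 1) := by
    refine antitoneOn_of_deriv_nonpos (convex_Ici 1)
      (fun x _ => (hg x).continuousAt.continuousWithinAt)
      (fun x _ => (hg x).differentiableAt.differentiableWithinAt) ?_
    intro x hx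
    rw [interior_Ici] at hx
    rw [(hg x).deriv]
    exact mul_nonpos_of_nonpos_of_nonneg (hneg x hx.le) (Real.exp_nonneg _)
  have h1 := hanti hu (hu.trans huv) huv
  simp only at h1
  have h2 := mul_le_mul_of_nonneg_right h1 (Real.exp_nonneg (√(n : ℝ) * v))
  have h3 : hr n v * Real.exp (-(√(n : ℝ) * v)) * Real.exp (√(n : ℝ) * v) = hr n v := by
    rw [mul_assoc, ← Real.exp_add]; simp
  have h4 : hr n u * Real.exp (-(√(n : ℝ) * u)) * Real.exp (√(n : ℝ) * v) =
      Real.exp (√(n : ℝ) * (v - u)) * hr n u := by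
    rw [mul_assoc, ← Real.exp_add, mul_comm]
    congr 2
    ring
  rw [h3, h4] at h2
  exact h2

end Pool.Agent.RRG
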