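import Pool.Agent.RRG.St

/-!
# RRG: quotients of the real polynomials `hr`
-/

set_option autoImplicit false

open Finset MeasureTheory Filter Topology

namespace Pool.Agent.RRG

open Pool.Agent.Helper51.RT

private lemma HRQ_num {x u : ℝ} (hx : 0 ≤ x) (hu : 1 ≤ u) :
    √(x ^ 2 + 2) * (u + x) ≤ u * (u + x) + (x ^ 2 + 1) := by
  set y := √(x ^ 2 + 2) with hy
  have hy0 : 0 ≤ y := Real.sqrt_nonneg _
  have hy2 : y ^ 2 = x ^ 2 + 2 := Real.sq_sqrt (by positivity)
  have h1 : y ≤ x + 2 := by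
    apply le_of_sq_le_sq _ (by linarith)
    nlinarith
  have h2 : y * (1 + x) ≤ 2 + x + x ^ 2 := by
    apply le_of_sq_le_sq _ (by positivity)
    rw [mul_pow, hy2]
    nlinarith [sq_nonneg x]
  nlinarith [mul_nonneg (sub_nonneg.2 hu) (show 0 ≤ u + 1 + x - y by linarith)]

theorem thm_HRQ : St_HRQ := by
  intro n u hu
  induction n with
  | zero =>
    simp only [hr, Nat.cast_zero, zero_add, Real.sqrt_one, Real.sqrt_zero, add_zero, mul_one]
    exact ⟨one_pos, hu, le_refl _⟩
  | succ n ih =>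
    obtain ⟨h0, h1, h2⟩ := ih
    have hn : (0 : ℝ) ≤ n := Nat.cast_nonneg n
    have hs : 0 < √((n : ℝ) + 1) := Real.sqrt_pos.2 (by linarith)
    have hs2 : √((n : ℝ) + 1) * √((n : ℝ) + 1) = (n : ℝ) + 1 := Real.mul_self_sqrt (by linarith)
    have h3 : 0 < hr (n + 1) u := lt_of_lt_of_le (mul_pos hs h0) h1
    have hrec : hr (n + 1 + 1) u = u * hr (n + 1) u + ((n : ℝ) + 1) * hr n u := rfl
    refine ⟨h3, ?_, ?_⟩
    · rw [hrec]
      push_cast
      set x := √(n : ℝ) with hx
      have hx0 : 0 ≤ x := Real.sqrt_nonneg _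
      have hx2 : x ^ 2 = n := Real.sq_sqrt hn
      have h4 := HRQ_num hx0 hu
      rw [hx2] at h4
      have h5 : 0 < u + x := by linarith
      rw [show (n : ℝ) + 1 + 1 = (n : ℝ) + 2 by ring]
      have h6 : √((n : ℝ) + 2) * hr (n + 1) u * (u + x) ≤
          (u * hr (n + 1) u + ((n : ℝ) + 1) * hr n u) * (u + x) := by
        have h7 := mul_le_mul_of_nonneg_right h4 h3.le
        have h8 := mul_le_mul_of_nonneg_left h2 (show (0 : ℝ) ≤ (n : ℝ) + 1 by linarith)
        nlinarith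
      exact le_of_mul_le_mul_right h6 h5
    · rw [hrec]
      push_cast
      have h4 := mul_le_mul_of_nonneg_left h1 hs.le
      rw [← mul_assoc, hs2] at h4
      nlinarith

end Pool.Agent.RRG
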