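import Pool.Agent.RRG.St

/-!
# RRG [PSI]
-/

set_option autoImplicit false

namespace Pool.Agent.RRG

theorem thm_PSI : St_PSI := by
  intro θ hθ
  have hd : ∀ x : ℝ, HasDerivAt
      (fun x : ℝ => 2 * x * Real.cosh x - 2 * Real.sinh x - 2 / 3 * x ^ 3)
      (2 * x * Real.sinh x - 2 * x ^ 2) x := by
    intro x
    have h1 : HasDerivAt (fun x : ℝ => 2 * x) 2 x := by
      simpa using (hasDerivAt_id x).const_mul (2 : ℝ)
    have h2 := h1.mul (Real.hasDerivAt_cosh x)
    have h3 := (Real.hasDerivAt_sinh x).const_mul (2 : ℝ)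
    have h4 := (hasDerivAt_pow 3 x).const_mul (2 / 3 : ℝ)
    refine ((h2.sub h3).sub h4).congr_deriv ?_
    push_cast
    ring
  have hmono : MonotoneOn
      (fun x : ℝ => 2 * x * Real.cosh x - 2 * Real.sinh x - 2 / 3 * x ^ 3) (Set.Ici 0) := by
    refine monotoneOn_of_deriv_nonneg (convex_Ici 0)
      (fun x _ => (hd x).continuousAt.continuousWithinAt)
      (fun x _ => (hd x).differentiableAt.differentiableWithinAt) ?_
    intro x hx
    rw [interior_Ici, Set.mem_Ioi] at hx
    rw [(hd x).deriv]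
    have h5 : x ≤ Real.sinh x := Real.self_le_sinh_iff.2 hx.le
    nlinarith
  have h := hmono (Set.mem_Ici.2 le_rfl) (Set.mem_Ici.2 hθ) hθ
  simp only [Real.sinh_zero, Real.cosh_zero] at h
  linarith

end Pool.Agent.RRG
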