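import Pool.Agent.RRG.St

/-!
# RRG, module PWD: the quotient near the saddle point, pointwise
-/

set_option autoImplicit false

open Finset MeasureTheory Filter Topology

namespace Pool.Agent.RRG

open Pool.Agent.Helper51.RT

private theorem PWD_norm_exp_re (z : ℂ) (h : z.re ≤ 0) : ‖Complex.exp z‖ ≤ 1 := by
  rw [Complex.norm_exp]
  exact Real.exp_le_one_iff.mpr h

private theorem PWD_exp_sub_one (z : ℂ) : ‖Complex.exp z - 1‖ ≤ ‖z‖ * Real.exp ‖z‖ := by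
  have h := Complex.norm_exp_sub_sum_le_norm_mul_exp z 1
  simpa using h

/-- the basic estimate for fixed parameters -/
private theorem PWD_core (hODE : St_ODE) (n : ℕ) (w : ℝ) (δ : ℂ) (F sp A C2 K1 : ℝ)
    (hF : 0 < F) (hsp : 0 ≤ sp) (hsp2 : sp * sp = (n : ℝ) + 1 / 2) (hA : 1 ≤ A) (hC2 : 0 ≤ C2)
    (hδ : ‖δ‖ ≤ 1) (hre : δ.re ≤ 0) (hK : sp * (-δ.re) ≤ K1)
    (hwA : |w| + 1 ≤ A)
    (h0 : ff n (w : ℂ) = (F : ℂ))
    (h1 : ‖f1 n (w : ℂ) - (sp : ℂ) * ff n (w : ℂ)‖ ≤ A * F)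
    (hff : ∀ x : ℝ, 0 ≤ x → x ≤ 1 → ‖ff n ((w : ℂ) + x * δ)‖ ≤ C2 * F) :
    ‖ff n ((w : ℂ) + δ) * Complex.exp (-((sp : ℂ) * δ)) / (F : ℂ) - 1‖ ≤
      (A + A ^ 2 / 4 * C2) * Real.exp (2 * K1) * ‖δ‖ := by
  have hFc : (F : ℂ) ≠ 0 := by exact_mod_cast hF.ne'
  have hspc : (sp : ℂ) * (sp : ℂ) = (n : ℂ) + 1 / 2 := by
    have := congrArg (fun t : ℝ => (t : ℂ)) hsp2
    push_cast at this
    exact this
  -- the two functions
  have hin : ∀ x : ℂ, HasDerivAt (fun z : ℂ => (w : ℂ) + z * δ) δ x := by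
    intro x
    have := ((hasDerivAt_id x).mul_const δ).const_add (w : ℂ)
    simpa using this
  have hps : ∀ x : ℂ, HasDerivAt (fun z : ℂ => δ * (Complex.exp ((sp : ℂ) * (z * δ)) *
      (f1 n ((w : ℂ) + z * δ) - (sp : ℂ) * ff n ((w : ℂ) + z * δ))) / (F : ℂ))
      (δ ^ 2 * Complex.exp ((sp : ℂ) * (x * δ)) * (((w : ℂ) + x * δ) ^ 2 / 4) *
        ff n ((w : ℂ) + x * δ) / (F : ℂ)) x := by
    intro x
    have ha : HasDerivAt (fun z : ℂ => ff n ((w : ℂ) + z * δ))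
        (f1 n ((w : ℂ) + x * δ) * δ) x :=
      HasDerivAt.comp (h₂ := ff n) (h := fun z : ℂ => (w : ℂ) + z * δ) x
        (hODE.1 n ((w : ℂ) + x * δ)).1 (hin x)
    have hb : HasDerivAt (fun z : ℂ => f1 n ((w : ℂ) + z * δ))
        (((n : ℂ) + 1 / 2 + ((w : ℂ) + x * δ) ^ 2 / 4) * ff n ((w : ℂ) + x * δ) * δ) x :=
      HasDerivAt.comp (h₂ := f1 n) (h := fun z : ℂ => (w : ℂ) + z * δ) x
        (hODE.1 n ((w : ℂ) + x * δ)).2 (hin x)
    have hc : HasDerivAt (fun z : ℂ => Complex.exp ((sp : ℂ) * (z * δ)))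
        (Complex.exp ((sp : ℂ) * (x * δ)) * ((sp : ℂ) * δ)) x := by
      have h := (((hasDerivAt_id x).mul_const δ).const_mul (sp : ℂ)).cexp
      simpa using h
    have hd := (((hc.mul (hb.sub (ha.const_mul (sp : ℂ)))).const_mul δ).div_const (F : ℂ))
    refine hd.congr_deriv ?_
    have e : (δ : ℂ) * (Complex.exp ((sp : ℂ) * (x * δ)) * ((sp : ℂ) * δ) *
        (f1 n ((w : ℂ) + x * δ) - (sp : ℂ) * ff n ((w : ℂ) + x * δ)) +
        Complex.exp ((sp : ℂ) * (x * δ)) *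
        (((n : ℂ) + 1 / 2 + ((w : ℂ) + x * δ) ^ 2 / 4) * ff n ((w : ℂ) + x * δ) * δ -
          (sp : ℂ) * (f1 n ((w : ℂ) + x * δ) * δ))) =
        δ ^ 2 * Complex.exp ((sp : ℂ) * (x * δ)) * (((w : ℂ) + x * δ) ^ 2 / 4) *
        ff n ((w : ℂ) + x * δ) := by
      rw [← hspc]
      ring
    simp only [Pi.sub_apply]
    rw [← e]
  have hph : ∀ x : ℂ, HasDerivAt (fun z : ℂ => ff n ((w : ℂ) + z * δ) *
      Complex.exp (-((sp : ℂ) * (z * δ))) / (F : ℂ))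
      (δ * (Complex.exp ((sp : ℂ) * (x * δ)) *
      (f1 n ((w : ℂ) + x * δ) - (sp : ℂ) * ff n ((w : ℂ) + x * δ))) / (F : ℂ) *
        Complex.exp (-(2 * ((sp : ℂ) * (x * δ))))) x := by
    intro x
    have ha : HasDerivAt (fun z : ℂ => ff n ((w : ℂ) + z * δ))
        (f1 n ((w : ℂ) + x * δ) * δ) x :=
      HasDerivAt.comp (h₂ := ff n) (h := fun z : ℂ => (w : ℂ) + z * δ) x
        (hODE.1 n ((w : ℂ) + x * δ)).1 (hin x)
    have hc : HasDerivAt (fun z : ℂ => Complex.exp (-((sp : ℂ) * (z * δ))))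
        (Complex.exp (-((sp : ℂ) * (x * δ))) * (-((sp : ℂ) * δ))) x := by
      have h := (((hasDerivAt_id x).mul_const δ).const_mul (sp : ℂ)).neg.cexp
      simpa using h
    have hd := ((ha.mul hc).div_const (F : ℂ))
    refine hd.congr_deriv ?_
    have e2 : Complex.exp (-(2 * ((sp : ℂ) * (x * δ)))) =
        Complex.exp (-((sp : ℂ) * (x * δ))) * Complex.exp (-((sp : ℂ) * (x * δ))) := by
      rw [← Complex.exp_add]; congr 1; ring
    have e3 : Complex.exp ((sp : ℂ) * (x * δ)) * Complex.exp (-((sp : ℂ) * (x * δ))) = 1 := by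
      rw [← Complex.exp_add]; simp
    rw [e2]
    calc (f1 n ((w : ℂ) + x * δ) * δ * Complex.exp (-((sp : ℂ) * (x * δ))) +
          ff n ((w : ℂ) + x * δ) * (Complex.exp (-((sp : ℂ) * (x * δ))) * (-((sp : ℂ) * δ)))) /
            (F : ℂ)
        = δ * ((f1 n ((w : ℂ) + x * δ) - (sp : ℂ) * ff n ((w : ℂ) + x * δ))) / (F : ℂ) *
          Complex.exp (-((sp : ℂ) * (x * δ))) * 1 := by ring
      _ = δ * ((f1 n ((w : ℂ) + x * δ) - (sp : ℂ) * ff n ((w : ℂ) + x * δ))) / (F : ℂ) *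
          Complex.exp (-((sp : ℂ) * (x * δ))) *
          (Complex.exp ((sp : ℂ) * (x * δ)) * Complex.exp (-((sp : ℂ) * (x * δ)))) := by rw [e3]
      _ = _ := by ring
  -- bounds on the segment
  have hδ0 : 0 ≤ ‖δ‖ := norm_nonneg δ
  have hz : ∀ x : ℝ, 0 ≤ x → x ≤ 1 → ‖(w : ℂ) + x * δ‖ ≤ A := by
    intro x hx0 hx1
    have h2 : ‖(w : ℂ)‖ = |w| := by
      rw [Complex.norm_real]; rfl
    have h3 : ‖(x : ℂ) * δ‖ ≤ 1 := by
      rw [norm_mul, Complex.norm_real, Real.norm_eq_abs, abs_of_nonneg hx0]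
      nlinarith
    calc ‖(w : ℂ) + x * δ‖ ≤ ‖(w : ℂ)‖ + ‖(x : ℂ) * δ‖ := norm_add_le _ _
      _ ≤ |w| + 1 := by rw [h2]; linarith
      _ ≤ A := hwA
  have hps' : ∀ x : ℝ, 0 ≤ x → x ≤ 1 → ‖δ ^ 2 * Complex.exp ((sp : ℂ) * (x * δ)) *
      (((w : ℂ) + x * δ) ^ 2 / 4) * ff n ((w : ℂ) + x * δ) / (F : ℂ)‖ ≤
      A ^ 2 / 4 * C2 * ‖δ‖ := by
    intro x hx0 hx1
    have h4 : ‖Complex.exp ((sp : ℂ) * (x * δ))‖ ≤ 1 := by
      apply PWD_norm_exp_re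
      have : ((sp : ℂ) * (x * δ)).re = sp * (x * δ.re) := by
        simp [Complex.mul_re]
      rw [this]
      exact mul_nonpos_of_nonneg_of_nonpos hsp (mul_nonpos_of_nonneg_of_nonpos hx0 hre)
    have h5 : ‖(((w : ℂ) + x * δ) ^ 2 / 4)‖ ≤ A ^ 2 / 4 := by
      rw [norm_div, norm_pow]
      have : ‖(4 : ℂ)‖ = 4 := by norm_num
      rw [this]
      have h6 := hz x hx0 hx1
      have h7 : ‖(w : ℂ) + x * δ‖ ^ 2 ≤ A ^ 2 := pow_le_pow_left₀ (norm_nonneg _) h6 2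
      linarith
    have h8 : ‖ff n ((w : ℂ) + x * δ)‖ / F ≤ C2 := by
      rw [div_le_iff₀ hF]
      exact hff x hx0 hx1
    have h9 : ‖δ‖ ^ 2 ≤ ‖δ‖ := by nlinarith
    have hFn : ‖(F : ℂ)‖ = F := by
      rw [Complex.norm_real, Real.norm_eq_abs, abs_of_pos hF]
    rw [norm_div, norm_mul, norm_mul, norm_mul, norm_pow, hFn]
    calc ‖δ‖ ^ 2 * ‖Complex.exp ((sp : ℂ) * (x * δ))‖ * ‖((w : ℂ) + x * δ) ^ 2 / 4‖ *
          ‖ff n ((w : ℂ) + x * δ)‖ / F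
        = ‖δ‖ ^ 2 * ‖Complex.exp ((sp : ℂ) * (x * δ))‖ * ‖((w : ℂ) + x * δ) ^ 2 / 4‖ *
          (‖ff n ((w : ℂ) + x * δ)‖ / F) := by ring
      _ ≤ ‖δ‖ * 1 * (A ^ 2 / 4) * C2 := by
          have hFn0 : 0 ≤ ‖ff n ((w : ℂ) + x * δ)‖ / F := by positivity
          gcongr
      _ = A ^ 2 / 4 * C2 * ‖δ‖ := by ring
  have hFn : ‖(F : ℂ)‖ = F := by
    rw [Complex.norm_real, Real.norm_eq_abs, abs_of_pos hF]
  have hpsb : ∀ x ∈ Set.Icc (0 : ℝ) 1, ‖δ * (Complex.exp ((sp : ℂ) * ((x : ℂ) * δ)) *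
      (f1 n ((w : ℂ) + x * δ) - (sp : ℂ) * ff n ((w : ℂ) + x * δ))) / (F : ℂ)‖ ≤
      (A + A ^ 2 / 4 * C2) * ‖δ‖ := by
    intro x hx
    have hd : ∀ y ∈ Set.Icc (0 : ℝ) 1, HasDerivWithinAt (fun y : ℝ =>
        δ * (Complex.exp ((sp : ℂ) * ((y : ℂ) * δ)) *
        (f1 n ((w : ℂ) + y * δ) - (sp : ℂ) * ff n ((w : ℂ) + y * δ))) / (F : ℂ))
        (δ ^ 2 * Complex.exp ((sp : ℂ) * ((y : ℂ) * δ)) * (((w : ℂ) + y * δ) ^ 2 / 4) *
        ff n ((w : ℂ) + y * δ) / (F : ℂ)) (Set.Icc 0 1) y := fun y _ =>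
      (HasDerivAt.comp_ofReal (hps (y : ℂ))).hasDerivWithinAt
    have hm := norm_image_sub_le_of_norm_deriv_le_segment' hd
      (fun y hy => hps' y hy.1 hy.2.le) x hx
    have h0' : ‖δ * (Complex.exp ((sp : ℂ) * (((0 : ℝ) : ℂ) * δ)) *
        (f1 n ((w : ℂ) + ((0 : ℝ) : ℂ) * δ) - (sp : ℂ) * ff n ((w : ℂ) + ((0 : ℝ) : ℂ) * δ))) /
        (F : ℂ)‖ ≤ A * ‖δ‖ := by
      have e1 : δ * (Complex.exp ((sp : ℂ) * (((0 : ℝ) : ℂ) * δ)) *
        (f1 n ((w : ℂ) + ((0 : ℝ) : ℂ) * δ) - (sp : ℂ) * ff n ((w : ℂ) + ((0 : ℝ) : ℂ) * δ))) /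
        (F : ℂ) = δ * ((f1 n (w : ℂ) - (sp : ℂ) * ff n (w : ℂ)) / (F : ℂ)) := by
        simp only [Complex.ofReal_zero, zero_mul, mul_zero, add_zero, Complex.exp_zero, one_mul]
        ring
      rw [e1, norm_mul, norm_div, hFn]
      have h2 : ‖f1 n (w : ℂ) - (sp : ℂ) * ff n (w : ℂ)‖ / F ≤ A := by
        rw [div_le_iff₀ hF]; exact h1
      calc ‖δ‖ * (‖f1 n (w : ℂ) - (sp : ℂ) * ff n (w : ℂ)‖ / F) ≤ ‖δ‖ * A := by gcongr
        _ = A * ‖δ‖ := by ring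
    have hx1 : x - 0 ≤ 1 := by linarith [hx.2]
    have hnn : 0 ≤ A ^ 2 / 4 * C2 * ‖δ‖ := by positivity
    have h3 : A ^ 2 / 4 * C2 * ‖δ‖ * (x - 0) ≤ A ^ 2 / 4 * C2 * ‖δ‖ := by
      calc A ^ 2 / 4 * C2 * ‖δ‖ * (x - 0) ≤ A ^ 2 / 4 * C2 * ‖δ‖ * 1 := by gcongr
        _ = _ := by ring
    have h4 := norm_le_norm_add_norm_sub' (δ * (Complex.exp ((sp : ℂ) * ((x : ℂ) * δ)) *
      (f1 n ((w : ℂ) + x * δ) - (sp : ℂ) * ff n ((w : ℂ) + x * δ))) / (F : ℂ))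
      (δ * (Complex.exp ((sp : ℂ) * (((0 : ℝ) : ℂ) * δ)) *
        (f1 n ((w : ℂ) + ((0 : ℝ) : ℂ) * δ) - (sp : ℂ) * ff n ((w : ℂ) + ((0 : ℝ) : ℂ) * δ))) /
        (F : ℂ))
    have h5 : (A + A ^ 2 / 4 * C2) * ‖δ‖ = A * ‖δ‖ + A ^ 2 / 4 * C2 * ‖δ‖ := by ring
    rw [h5]
    exact h4.trans (add_le_add h0' (hm.trans h3))
  have hexp : ∀ x : ℝ, 0 ≤ x → x ≤ 1 →
      ‖Complex.exp (-(2 * ((sp : ℂ) * ((x : ℂ) * δ))))‖ ≤ Real.exp (2 * K1) := by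
    intro x hx0 hx1
    rw [Complex.norm_exp]
    apply Real.exp_le_exp.mpr
    have e : (-(2 * ((sp : ℂ) * ((x : ℂ) * δ)))).re = 2 * (x * (sp * (-δ.re))) := by
      simp [Complex.mul_re]
      ring
    rw [e]
    have h1 : 0 ≤ sp * (-δ.re) := mul_nonneg hsp (by linarith)
    nlinarith
  have hfin := norm_image_sub_le_of_norm_deriv_le_segment_01'
    (f := fun y : ℝ => ff n ((w : ℂ) + y * δ) * Complex.exp (-((sp : ℂ) * ((y : ℂ) * δ))) /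
      (F : ℂ))
    (f' := fun x : ℝ => (δ * (Complex.exp ((sp : ℂ) * ((x : ℂ) * δ)) *
      (f1 n ((w : ℂ) + x * δ) - (sp : ℂ) * ff n ((w : ℂ) + x * δ))) / (F : ℂ) *
        Complex.exp (-(2 * ((sp : ℂ) * ((x : ℂ) * δ))))))
    (C := (A + A ^ 2 / 4 * C2) * Real.exp (2 * K1) * ‖δ‖)
    (fun y _ => (HasDerivAt.comp_ofReal (hph (y : ℂ))).hasDerivWithinAt)
    (by
      intro x hx
      rw [norm_mul]
      calc ‖δ * (Complex.exp ((sp : ℂ) * ((x : ℂ) * δ)) *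
            (f1 n ((w : ℂ) + x * δ) - (sp : ℂ) * ff n ((w : ℂ) + x * δ))) / (F : ℂ)‖ *
            ‖Complex.exp (-(2 * ((sp : ℂ) * ((x : ℂ) * δ))))‖
          ≤ ((A + A ^ 2 / 4 * C2) * ‖δ‖) * Real.exp (2 * K1) :=
            mul_le_mul (hpsb x ⟨hx.1, hx.2.le⟩) (hexp x hx.1 hx.2.le) (norm_nonneg _)
              (by positivity)
        _ = _ := by ring)
  have e0 : (fun y : ℝ => ff n ((w : ℂ) + y * δ) * Complex.exp (-((sp : ℂ) * ((y : ℂ) * δ))) /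
      (F : ℂ)) 0 = 1 := by
    simp only [Complex.ofReal_zero, zero_mul, mul_zero, add_zero, neg_zero, Complex.exp_zero,
      mul_one, h0]
    exact div_self hFc
  have e1 : (fun y : ℝ => ff n ((w : ℂ) + y * δ) * Complex.exp (-((sp : ℂ) * ((y : ℂ) * δ))) /
      (F : ℂ)) 1 = ff n ((w : ℂ) + δ) * Complex.exp (-((sp : ℂ) * δ)) / (F : ℂ) := by
    simp only [Complex.ofReal_one, one_mul]
  beta_reduce at e0 e1 hfin
  rw [e0, e1] at hfin
  exact hfin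

/-- [PWD] -/
theorem thm_PWD (hHHB : St_HHB) (hODE : St_ODE) (hHRQ : St_HRQ) (hGGB : St_GGB)
    (hDOM : St_DOM) : St_PWD := by
  intro W K
  obtain ⟨C1, hC1, hdom⟩ := hDOM W 1
  set A : ℝ := |W| + 1 with hA
  have hA1 : 1 ≤ A := by rw [hA]; linarith [abs_nonneg W]
  set C2 : ℝ := Real.exp (A ^ 2 / 4) * C1 with hC2
  have hC2p : 0 < C2 := by rw [hC2]; positivity
  set C5 : ℝ := (A + A ^ 2 / 4 * C2) * Real.exp (2 * (K + 1)) with hC5
  have hC5p : 0 < C5 := by rw [hC5]; positivity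
  set c : ℝ := 1 + (2 * A + 1) / 4 with hc
  have hcp : 0 < c := by rw [hc]; positivity
  refine ⟨C5 * Real.exp c + c * Real.exp c, by positivity, ?_⟩
  intro n w δ hw hwW hδ hre hK
  have hw0 : 0 < w := by linarith
  have hWA : w + 1 ≤ A := by
    rw [hA]; linarith [le_abs_self W]
  have hhr : 0 < hr n w := (hHRQ n w hw).1
  have hF : 0 < fr n w := by
    unfold fr; positivity
  set sp : ℝ := √((n : ℝ) + 1 / 2) with hsp
  have hsp0 : 0 ≤ sp := Real.sqrt_nonneg _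
  have hsp2 : sp * sp = (n : ℝ) + 1 / 2 := Real.mul_self_sqrt (by positivity)
  have hs0 : 0 ≤ √(n : ℝ) := Real.sqrt_nonneg _
  have hss : √(n : ℝ) * √(n : ℝ) = (n : ℝ) := Real.mul_self_sqrt (by positivity)
  have hsle : √(n : ℝ) ≤ sp := Real.sqrt_le_sqrt (by linarith)
  have hsple : sp ≤ √(n : ℝ) + 1 := by
    by_contra hcon
    push Not at hcon
    nlinarith
  have hre1 : -δ.re ≤ 1 := by
    have h1 := Complex.abs_re_le_norm δ
    have h2 := neg_abs_le δ.re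
    linarith
  have hKsp : sp * (-δ.re) ≤ K + 1 := by
    have h1 : sp * (-δ.re) ≤ (√(n : ℝ) + 1) * (-δ.re) := by
      apply mul_le_mul_of_nonneg_right hsple; linarith
    nlinarith
  have hwabs : |w| + 1 ≤ A := by rw [abs_of_pos hw0]; exact hWA
  have h0 : ff n (w : ℂ) = ((fr n w : ℝ) : ℂ) := by
    unfold ff fr
    rw [hHHB.1 n w]
    push_cast
    ring
  have h1c : f1 n (w : ℂ) = ((fr1 n w : ℝ) : ℂ) := by
    unfold f1 fr1
    rw [hHHB.1 n w, hHHB.1 (n - 1) w]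
    push_cast
    ring
  have h1 : ‖f1 n (w : ℂ) - (sp : ℂ) * ff n (w : ℂ)‖ ≤ A * fr n w := by
    rw [h0, h1c]
    have e : (((fr1 n w : ℝ) : ℂ) - (sp : ℂ) * ((fr n w : ℝ) : ℂ)) =
        ((fr1 n w - sp * fr n w : ℝ) : ℂ) := by push_cast; ring
    rw [e, Complex.norm_real, Real.norm_eq_abs]
    refine (hGGB.2.2.1 n w hw).trans ?_
    have : w / 2 + 1 ≤ A := by linarith
    exact mul_le_mul_of_nonneg_right this hF.le
  have hff : ∀ x : ℝ, 0 ≤ x → x ≤ 1 → ‖ff n ((w : ℂ) + x * δ)‖ ≤ C2 * fr n w := by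
    intro x hx0 hx1
    have hxre : x * (-δ.re) ≤ 1 := by
      have : 0 ≤ -δ.re := by linarith
      nlinarith
    have hxre0 : 0 ≤ x * (-δ.re) := mul_nonneg hx0 (by linarith)
    have hu : |w + x * δ.re| ≤ w := by
      rw [abs_le]; constructor
      · linarith
      · linarith
    have hv : |x * δ.im| ≤ 1 := by
      rw [abs_mul, abs_of_nonneg hx0]
      have h2 := Complex.abs_im_le_norm δ
      have h3 := abs_nonneg δ.im
      nlinarith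
    have hz : (w : ℂ) + x * δ = ((w + x * δ.re : ℝ) : ℂ) + ((x * δ.im : ℝ) : ℂ) * Complex.I := by
      apply Complex.ext
      · simp
      · simp
    have h4 := hdom n w (w + x * δ.re) (x * δ.im) hw hwW hu hv
    have h5 : ‖hh n ((w : ℂ) + x * δ)‖ ≤ C1 * hr n w := by
      rw [hz]
      refine h4.trans ?_
      have h6 : Real.exp (-(√(n : ℝ) * (w - |w + x * δ.re|))) ≤ 1 := by
        apply Real.exp_le_one_iff.mpr
        have : 0 ≤ √(n : ℝ) * (w - |w + x * δ.re|) := mul_nonneg hs0 (by linarith)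
        linarith
      calc C1 * hr n w * Real.exp (-(√(n : ℝ) * (w - |w + x * δ.re|)))
          ≤ C1 * hr n w * 1 := by gcongr
        _ = C1 * hr n w := by ring
    have h7 : ‖Complex.exp (((w : ℂ) + x * δ) ^ 2 / 4)‖ ≤ Real.exp (A ^ 2 / 4) := by
      refine (Complex.norm_exp_le_exp_norm _).trans ?_
      apply Real.exp_le_exp.mpr
      rw [norm_div, norm_pow]
      have h8 : ‖(4 : ℂ)‖ = 4 := by norm_num
      rw [h8]
      have h9 : ‖(w : ℂ) + x * δ‖ ≤ A := by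
        have ha : ‖(w : ℂ)‖ = |w| := by rw [Complex.norm_real]; rfl
        have hb : ‖(x : ℂ) * δ‖ ≤ 1 := by
          rw [norm_mul, Complex.norm_real, Real.norm_eq_abs, abs_of_nonneg hx0]
          nlinarith [norm_nonneg δ]
        calc ‖(w : ℂ) + x * δ‖ ≤ ‖(w : ℂ)‖ + ‖(x : ℂ) * δ‖ := norm_add_le _ _
          _ ≤ |w| + 1 := by rw [ha]; linarith
          _ ≤ A := hwabs
      have h10 : ‖(w : ℂ) + x * δ‖ ^ 2 ≤ A ^ 2 := pow_le_pow_left₀ (norm_nonneg _) h9 2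
      linarith
    have h11 : hr n w ≤ fr n w := by
      unfold fr
      have : 1 ≤ Real.exp (w ^ 2 / 4) := Real.one_le_exp (by positivity)
      nlinarith
    unfold ff
    rw [norm_mul]
    calc ‖Complex.exp (((w : ℂ) + x * δ) ^ 2 / 4)‖ * ‖hh n ((w : ℂ) + x * δ)‖
        ≤ Real.exp (A ^ 2 / 4) * (C1 * hr n w) :=
          mul_le_mul h7 h5 (norm_nonneg _) (Real.exp_pos _).le
      _ = C2 * hr n w := by rw [hC2]; ring
      _ ≤ C2 * fr n w := by gcongr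
  have hcore := PWD_core hODE n w δ (fr n w) sp A C2 (K + 1) hF hsp0 hsp2 hA1 hC2p.le hδ hre hKsp
    hwabs h0 h1 hff
  -- comparison of the two expressions
  set a : ℂ := ((sp - √(n : ℝ) : ℝ) : ℂ) * δ - (2 * (w : ℂ) * δ + δ ^ 2) / 4 with ha
  have hhrc : ((hr n w : ℝ) : ℂ) ≠ 0 := by exact_mod_cast hhr.ne'
  have hkey : hh n ((w : ℂ) + δ) / ((hr n w : ℝ) : ℂ) *
      Complex.exp (-(((√(n : ℝ) : ℝ) : ℂ) * δ)) =
      (ff n ((w : ℂ) + δ) * Complex.exp (-((sp : ℂ) * δ)) / ((fr n w : ℝ) : ℂ)) *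
        Complex.exp a := by
    have e1 : ((fr n w : ℝ) : ℂ) = Complex.exp ((w : ℂ) ^ 2 / 4) * ((hr n w : ℝ) : ℂ) := by
      unfold fr; push_cast; ring
    have e2 : ff n ((w : ℂ) + δ) = Complex.exp (((w : ℂ) + δ) ^ 2 / 4) * hh n ((w : ℂ) + δ) := rfl
    have e3 : Complex.exp (-(((√(n : ℝ) : ℝ) : ℂ) * δ)) * Complex.exp ((w : ℂ) ^ 2 / 4) =
        Complex.exp (((w : ℂ) + δ) ^ 2 / 4) * Complex.exp (-((sp : ℂ) * δ)) *
          Complex.exp a := by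
      rw [← Complex.exp_add, ← Complex.exp_add, ← Complex.exp_add]
      congr 1
      rw [ha]
      push_cast
      ring
    have e4 : Complex.exp ((w : ℂ) ^ 2 / 4) ≠ 0 := Complex.exp_ne_zero _
    rw [e1, e2]
    rw [div_mul_eq_mul_div, div_mul_eq_mul_div, div_eq_div_iff hhrc (mul_ne_zero e4 hhrc)]
    calc hh n ((w : ℂ) + δ) * Complex.exp (-(((√(n : ℝ) : ℝ) : ℂ) * δ)) *
          (Complex.exp ((w : ℂ) ^ 2 / 4) * ((hr n w : ℝ) : ℂ))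
        = hh n ((w : ℂ) + δ) * (Complex.exp (-(((√(n : ℝ) : ℝ) : ℂ) * δ)) *
          Complex.exp ((w : ℂ) ^ 2 / 4)) * ((hr n w : ℝ) : ℂ) := by ring
      _ = hh n ((w : ℂ) + δ) * (Complex.exp (((w : ℂ) + δ) ^ 2 / 4) *
          Complex.exp (-((sp : ℂ) * δ)) * Complex.exp a) * ((hr n w : ℝ) : ℂ) := by rw [e3]
      _ = _ := by ring
  have hanorm : ‖a‖ ≤ c * ‖δ‖ := by
    have h1 : ‖((sp - √(n : ℝ) : ℝ) : ℂ) * δ‖ ≤ ‖δ‖ := by
      rw [norm_mul, Complex.norm_real, Real.norm_eq_abs, abs_of_nonneg (by linarith)]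
      have : sp - √(n : ℝ) ≤ 1 := by linarith
      nlinarith [norm_nonneg δ]
    have h2 : ‖(2 * (w : ℂ) * δ + δ ^ 2) / 4‖ ≤ (2 * A + 1) / 4 * ‖δ‖ := by
      have e : (2 * (w : ℂ) * δ + δ ^ 2) / 4 = (2 * (w : ℂ) + δ) / 4 * δ := by ring
      rw [e, norm_mul]
      have h3 : ‖(2 * (w : ℂ) + δ) / 4‖ ≤ (2 * A + 1) / 4 := by
        rw [norm_div]
        have h8 : ‖(4 : ℂ)‖ = 4 := by norm_num
        rw [h8]
        have h9 : ‖2 * (w : ℂ) + δ‖ ≤ 2 * A + 1 := by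
          have h10 : ‖2 * (w : ℂ)‖ = 2 * w := by
            rw [norm_mul, Complex.norm_real, Real.norm_eq_abs, abs_of_pos hw0]
            norm_num
          calc ‖2 * (w : ℂ) + δ‖ ≤ ‖2 * (w : ℂ)‖ + ‖δ‖ := norm_add_le _ _
            _ ≤ 2 * A + 1 := by rw [h10]; linarith
        linarith
      exact mul_le_mul_of_nonneg_right h3 (norm_nonneg _)
    calc ‖a‖ ≤ ‖((sp - √(n : ℝ) : ℝ) : ℂ) * δ‖ + ‖(2 * (w : ℂ) * δ + δ ^ 2) / 4‖ :=
          norm_sub_le _ _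
      _ ≤ ‖δ‖ + (2 * A + 1) / 4 * ‖δ‖ := add_le_add h1 h2
      _ = c * ‖δ‖ := by rw [hc]; ring
  have hac : ‖a‖ ≤ c := hanorm.trans (by nlinarith [norm_nonneg δ])
  have hea : ‖Complex.exp a‖ ≤ Real.exp c :=
    (Complex.norm_exp_le_exp_norm a).trans (Real.exp_le_exp.mpr hac)
  have hea1 : ‖Complex.exp a - 1‖ ≤ c * Real.exp c * ‖δ‖ := by
    refine (PWD_exp_sub_one a).trans ?_
    calc ‖a‖ * Real.exp ‖a‖ ≤ (c * ‖δ‖) * Real.exp c := by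
          have := Real.exp_le_exp.mpr hac
          gcongr
      _ = _ := by ring
  rw [hkey]
  set φ : ℂ := ff n ((w : ℂ) + δ) * Complex.exp (-((sp : ℂ) * δ)) / ((fr n w : ℝ) : ℂ) with hφ
  have e5 : φ * Complex.exp a - 1 = (φ - 1) * Complex.exp a + (Complex.exp a - 1) := by ring
  rw [e5]
  calc ‖(φ - 1) * Complex.exp a + (Complex.exp a - 1)‖
      ≤ ‖(φ - 1) * Complex.exp a‖ + ‖Complex.exp a - 1‖ := norm_add_le _ _
    _ ≤ (C5 * ‖δ‖) * Real.exp c + c * Real.exp c * ‖δ‖ := by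
        rw [norm_mul]
        exact add_le_add (mul_le_mul hcore hea (norm_nonneg _) (by positivity)) hea1
    _ = (C5 * Real.exp c + c * Real.exp c) * ‖δ‖ := by ring

end Pool.Agent.RRG
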