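import Pool.Agent.RRG.St
import Pool.Agent.RT51.RSK
import Pool.Agent.RT51.Err

/-!
# RRG, modules CRD and RTL: the number of involutions, the right tail
-/

set_option autoImplicit false

namespace Pool.Agent.RRG

open Pool.Agent.Helper51.RT

/-- [CRD] -/
theorem thm_CRD : St_CRD := fun n k => Pool.Agent.RT51.card_involutions_lis n k

private lemma RTL_grow (n k : ℕ) (h : 100 * n ≤ k ^ 2) :
    grow n (k - 1) * grow n (k + 1) ≤ grow n k ^ 2 := by
  by_cases hkn : k < n
  · have hk : 100 ≤ k := by
      by_contra hcon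
      nlinarith
    exact main_of_err hk hkn h (Pool.Agent.RT51.err_bound n k hk hkn.le h)
  · rw [grow_zero (by omega : n < k + 1), mul_zero]
    exact Nat.zero_le _

/-- [RTL] -/
theorem thm_RTL : St_RTL := by
  intro n k _ h
  rw [thm_CRD, thm_CRD, thm_CRD]
  exact RTL_grow n k h

end Pool.Agent.RRG
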