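import Pool.Agent.RRG.St

/-!
# RRG, module SEQ: the saddle points of a sequence in the range (helper72)
-/

set_option autoImplicit false

open Finset MeasureTheory Filter Topology

namespace Pool.Agent.RRG

open Pool.Agent.Helper51.RT

/-- the saddle point of a number `x > 1` -/
theorem SEQ_core (x : ℝ) (hx : 1 < x) : ∃ θ : ℝ, 0 < θ ∧ Real.cosh θ = x ∧ θ ≤ 2 * x ∧
    x - 1 ≤ x * θ ^ 2 := by
  have hs : 0 < x ^ 2 - 1 := by nlinarith
  obtain ⟨r, hr⟩ : ∃ r : ℝ, r = √(x ^ 2 - 1) := ⟨_, rfl⟩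
  have hr0 : 0 < r := by
    rw [hr]
    exact Real.sqrt_pos.2 hs
  have hr2 : r ^ 2 = x ^ 2 - 1 := by
    rw [hr]
    exact Real.sq_sqrt hs.le
  obtain ⟨E, hE⟩ : ∃ E : ℝ, E = x + r := ⟨_, rfl⟩
  have hE1 : 1 < E := by
    rw [hE]
    linarith
  have hE0 : 0 < E := by linarith
  have hrx : r ≤ x := by nlinarith
  have hE2 : E ≤ 2 * x := by
    rw [hE]
    linarith
  have hinv : E⁻¹ = x - r := by
    have h0 : (x - r) * E = 1 := by
      rw [hE]
      linear_combination -hr2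
    rw [inv_eq_one_div, div_eq_iff hE0.ne', h0]
  have hexp : Real.exp (Real.log E) = E := Real.exp_log hE0
  have hcosh : Real.cosh (Real.log E) = x := by
    rw [Real.cosh_eq, Real.exp_neg, hexp, hinv, hE]
    ring
  have hlog : 1 - E⁻¹ ≤ Real.log E := Real.one_sub_inv_le_log_of_pos hE0
  have hlog0 : 0 < Real.log E := Real.log_pos hE1
  refine ⟨Real.log E, hlog0, hcosh, ?_, ?_⟩
  · have := Real.log_le_sub_one_of_pos hE0
    linarith
  · have h1 : 0 ≤ 1 - E⁻¹ := by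
      rw [sub_nonneg]
      exact inv_le_one_of_one_le₀ hE1.le
    have h2 : (1 - E⁻¹) ^ 2 ≤ Real.log E ^ 2 := pow_le_pow_left₀ h1 hlog 2
    have h3 : x - 1 = E / 2 * (1 - E⁻¹) ^ 2 := by
      have h4 : x = (E + E⁻¹) / 2 := by
        rw [hinv, hE]
        ring
      rw [h4]
      field_simp
      ring
    rw [h3]
    calc E / 2 * (1 - E⁻¹) ^ 2 ≤ x * (1 - E⁻¹) ^ 2 := by
          refine mul_le_mul_of_nonneg_right ?_ (sq_nonneg _)
          linarith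
      _ ≤ x * Real.log E ^ 2 := mul_le_mul_of_nonneg_left h2 (by linarith)

/-- the power `3/2` -/
theorem SEQ_pow {n l θ : ℝ} (hn : 0 < n) (hl : 0 < l) (hθ : 0 < θ) :
    (√n * θ ^ 2 / (n ^ (1 / 6 : ℝ) * l ^ (2 / 3 : ℝ))) ^ (3 / 2 : ℝ) = √n * θ ^ 3 / l := by
  have h1 : (n ^ (1 / 6 : ℝ)) ^ (3 / 2 : ℝ) = n ^ (1 / 4 : ℝ) := by
    rw [← Real.rpow_mul hn.le]
    norm_num
  have h2 : (l ^ (2 / 3 : ℝ)) ^ (3 / 2 : ℝ) = l := by
    rw [← Real.rpow_mul hl.le]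
    norm_num
  have h3 : (√n) ^ (3 / 2 : ℝ) = √n * n ^ (1 / 4 : ℝ) := by
    rw [Real.sqrt_eq_rpow, ← Real.rpow_mul hn.le, ← Real.rpow_add hn]
    norm_num
  have h4 : (θ ^ 2) ^ (3 / 2 : ℝ) = θ ^ 3 := by
    rw [← Real.rpow_natCast θ 2, ← Real.rpow_mul hθ.le, ← Real.rpow_natCast θ 3]
    norm_num
  rw [Real.div_rpow (by positivity) (by positivity), Real.mul_rpow (by positivity) (by positivity),
    Real.mul_rpow (by positivity) (by positivity), h1, h2, h3, h4]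
  have h5 : n ^ (1 / 4 : ℝ) ≠ 0 := (Real.rpow_pos_of_pos hn _).ne'
  field_simp

theorem thm_SEQ : St_SEQ := by
  intro n k K hn hk hL
  have h3 : ∀ᶠ i in atTop, 3 ≤ n i := hn.eventually_ge_atTop 3
  have hlog : ∀ m : ℕ, 3 ≤ m → 1 ≤ Real.log (m : ℝ) := by
    intro m hm
    rw [Real.le_log_iff_exp_le (by positivity)]
    have h1 : Real.exp 1 < 3 := Real.exp_one_lt_three
    have h2 : (3 : ℝ) ≤ m := by exact_mod_cast hm
    linarith
  have hev : ∀ᶠ i in atTop, 3 ≤ n i ∧ (k i : ℝ) ≤ K * √(n i : ℝ) ∧ 2 * √(n i : ℝ) < k i := by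
    filter_upwards [h3, hk, hL.eventually_gt_atTop 0] with i i1 i2 i3
    refine ⟨i1, i2, ?_⟩
    have hp : 0 < (n i : ℝ) ^ (1 / 6 : ℝ) * Real.log (n i) ^ (2 / 3 : ℝ) := by
      have := hlog _ i1
      have : (0 : ℝ) < n i := by positivity
      positivity
    rw [div_pos_iff_of_pos_right hp] at i3
    linarith
  have hK : 0 < K := by
    obtain ⟨i, i1, i2, i3⟩ := hev.exists
    have h1 : 0 < √(n i : ℝ) := Real.sqrt_pos.2 (by positivity)
    by_contra h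
    push Not at h
    nlinarith
  have hex : ∀ i, ∃ θ : ℝ, 1 < (k i : ℝ) / (2 * √(n i : ℝ)) → 0 < θ ∧
      Real.cosh θ = (k i : ℝ) / (2 * √(n i : ℝ)) ∧ θ ≤ 2 * ((k i : ℝ) / (2 * √(n i : ℝ))) ∧
      (k i : ℝ) / (2 * √(n i : ℝ)) - 1 ≤ (k i : ℝ) / (2 * √(n i : ℝ)) * θ ^ 2 := by
    intro i
    by_cases h : 1 < (k i : ℝ) / (2 * √(n i : ℝ))
    · obtain ⟨θ, hθ⟩ := SEQ_core _ h
      exact ⟨θ, fun _ => hθ⟩
    · exact ⟨0, fun h' => absurd h' h⟩
  choose θ hθ using hex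
  have hall : ∀ᶠ i in atTop, 3 ≤ n i ∧ 0 < θ i ∧ θ i ≤ K ∧
      (k i : ℝ) = 2 * √(n i : ℝ) * Real.cosh (θ i) ∧
      (k i : ℝ) - 2 * √(n i : ℝ) ≤ K * (√(n i : ℝ) * θ i ^ 2) := by
    filter_upwards [hev] with i hi
    obtain ⟨i1, i2, i3⟩ := hi
    have h1 : 0 < √(n i : ℝ) := Real.sqrt_pos.2 (by positivity)
    have h2 : 1 < (k i : ℝ) / (2 * √(n i : ℝ)) := by
      rw [one_lt_div (by positivity)]
      exact i3
    obtain ⟨t1, t2, t3, t4⟩ := hθ i h2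
    have h5 : 2 * ((k i : ℝ) / (2 * √(n i : ℝ))) ≤ K := by
      rw [← mul_div_assoc, div_le_iff₀ (by positivity)]
      linarith
    refine ⟨i1, t1, t3.trans h5, ?_, ?_⟩
    · rw [t2]
      field_simp
    · have h6 := mul_le_mul_of_nonneg_left t4 (by positivity : 0 ≤ 2 * √(n i : ℝ))
      have h7 : 2 * √(n i : ℝ) * ((k i : ℝ) / (2 * √(n i : ℝ)) - 1) = k i - 2 * √(n i : ℝ) := by
        field_simp
      have h8 : 2 * √(n i : ℝ) * ((k i : ℝ) / (2 * √(n i : ℝ)) * θ i ^ 2) = k i * θ i ^ 2 := by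
        field_simp
      rw [h7, h8] at h6
      refine h6.trans ?_
      calc (k i : ℝ) * θ i ^ 2 ≤ (K * √(n i : ℝ)) * θ i ^ 2 :=
            mul_le_mul_of_nonneg_right i2 (sq_nonneg _)
        _ = _ := by ring
  have hmain : Tendsto (fun i => √(n i : ℝ) * θ i ^ 3 / Real.log (n i)) atTop atTop := by
    have h1 : Tendsto (fun i => (((k i : ℝ) - 2 * √(n i : ℝ)) /
        ((n i : ℝ) ^ (1 / 6 : ℝ) * Real.log (n i) ^ (2 / 3 : ℝ)) / K) ^ (3 / 2 : ℝ)) atTop atTop :=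
      (tendsto_rpow_atTop (by norm_num)).comp (hL.atTop_div_const hK)
    refine tendsto_atTop_mono' _ ?_ h1
    filter_upwards [hall, hL.eventually_gt_atTop 0] with i hi hi0
    obtain ⟨i1, i2, i3, i4, i5⟩ := hi
    have hn0 : (0 : ℝ) < n i := by positivity
    have hl0 : 0 < Real.log (n i : ℝ) := lt_of_lt_of_le one_pos (hlog _ i1)
    rw [← SEQ_pow hn0 hl0 i2]
    refine Real.rpow_le_rpow (by positivity) ?_ (by norm_num)
    rw [div_le_iff₀ hK, div_mul_eq_mul_div]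
    refine div_le_div_of_nonneg_right ?_ (by positivity)
    linarith
  refine ⟨K, θ, ⟨?_, ?_⟩, hmain⟩
  · filter_upwards [hall] with i hi
    exact ⟨by omega, hi.2.1, hi.2.2.1, hi.2.2.2.1⟩
  · refine tendsto_atTop_mono' _ ?_ hmain
    filter_upwards [hall] with i hi
    obtain ⟨i1, i2, i3, i4, i5⟩ := hi
    have hl := hlog _ i1
    refine div_le_self (by positivity) hl

end Pool.Agent.RRG
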