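import Pool.Agent.RRG.St

/-!
# [SGI] the scale of the Gaussian tends to infinity
-/

set_option autoImplicit false

open Finset MeasureTheory Filter Topology

namespace Pool.Agent.RRG

open Pool.Agent.Helper51.RT

/-- [SGI] -/
theorem thm_SGI : St_SGI := by
  intro Θ n k θ hSq
  obtain ⟨h1, h2⟩ := hSq
  have hT1 : (1 : ℝ) ≤ max Θ 1 := le_max_right _ _
  have hT0 : (0 : ℝ) < max Θ 1 := lt_of_lt_of_le one_pos hT1
  -- the square root of n tends to infinity
  have hsq : Tendsto (fun i => √(n i : ℝ)) atTop atTop := by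
    have h3 : Tendsto (fun i => √(n i : ℝ) * θ i ^ 3 / (max Θ 1) ^ 3) atTop atTop :=
      h2.atTop_div_const (by positivity)
    refine tendsto_atTop_mono' atTop ?_ h3
    filter_upwards [h1] with i hi
    obtain ⟨_, hθ, hθT, _⟩ := hi
    have h4 : θ i ^ 3 ≤ (max Θ 1) ^ 3 :=
      pow_le_pow_left₀ hθ.le (hθT.trans (le_max_left _ _)) 3
    have h5 : 0 ≤ √(n i : ℝ) := Real.sqrt_nonneg _
    rw [div_le_iff₀ (by positivity)]
    exact mul_le_mul_of_nonneg_left h4 h5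
  have hn : Tendsto (fun i => ((n i : ℕ) : ℝ)) atTop atTop := by
    refine tendsto_atTop_mono' atTop ?_ hsq
    filter_upwards [h1] with i hi
    obtain ⟨hn1, _, _, _⟩ := hi
    have h4 : (1 : ℝ) ≤ n i := by exact_mod_cast hn1
    have h5 : √(n i : ℝ) ≤ √((n i : ℝ) ^ 2) := Real.sqrt_le_sqrt (by nlinarith)
    rwa [Real.sqrt_sq (by linarith)] at h5
  have hk : Tendsto (fun i => ((k i : ℕ) : ℝ)) atTop atTop := by
    refine tendsto_atTop_mono' atTop ?_ hsq
    filter_upwards [h1] with i hi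
    obtain ⟨_, _, _, hk1⟩ := hi
    have h4 : (1 : ℝ) ≤ Real.cosh (θ i) := Real.one_le_cosh _
    have h5 : 0 ≤ √(n i : ℝ) := Real.sqrt_nonneg _
    rw [hk1]
    nlinarith
  have hsg2 : Tendsto (fun i => √(n i : ℝ) * (2 * Real.sinh (θ i))) atTop atTop := by
    have h3 : Tendsto (fun i => √(n i : ℝ) * θ i ^ 3 / (max Θ 1) ^ 2) atTop atTop :=
      h2.atTop_div_const (by positivity)
    refine tendsto_atTop_mono' atTop ?_ h3
    filter_upwards [h1] with i hi
    obtain ⟨_, hθ, hθT, _⟩ := hi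
    have h4 : θ i ^ 2 ≤ (max Θ 1) ^ 2 :=
      pow_le_pow_left₀ hθ.le (hθT.trans (le_max_left _ _)) 2
    have h5 : 0 ≤ √(n i : ℝ) := Real.sqrt_nonneg _
    have h6 : θ i ≤ Real.sinh (θ i) := Real.self_le_sinh_iff.mpr hθ.le
    rw [div_le_iff₀ (by positivity)]
    calc √(n i : ℝ) * θ i ^ 3 = √(n i : ℝ) * θ i * θ i ^ 2 := by ring
      _ ≤ √(n i : ℝ) * θ i * (max Θ 1) ^ 2 := by
          exact mul_le_mul_of_nonneg_left h4 (by positivity)
      _ ≤ √(n i : ℝ) * (2 * Real.sinh (θ i)) * (max Θ 1) ^ 2 := by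
          refine mul_le_mul_of_nonneg_right ?_ (by positivity)
          exact mul_le_mul_of_nonneg_left (by linarith) h5
  refine ⟨?_, ?_, ?_, ?_⟩
  · exact Real.tendsto_sqrt_atTop.comp hsg2
  · exact tendsto_natCast_atTop_iff.mp hn
  · exact tendsto_natCast_atTop_iff.mp hk
  · filter_upwards [h1] with i hi
    obtain ⟨hn1, hθ, hθT, hk1⟩ := hi
    have h4 : (1 : ℝ) ≤ n i := by exact_mod_cast hn1
    have h5 : 0 < √(n i : ℝ) := Real.sqrt_pos.mpr (by linarith)
    have h6 : 0 < Real.sinh (θ i) := Real.sinh_pos_iff.mpr hθ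
    have h7 : 0 < √(n i : ℝ) * (2 * Real.sinh (θ i)) := by positivity
    have h8 : sg (n i) (θ i) ^ 2 = √(n i : ℝ) * (2 * Real.sinh (θ i)) := by
      unfold sg
      exact Real.sq_sqrt h7.le
    refine ⟨Real.sqrt_pos.mpr h7, h8, ?_⟩
    rw [h8]
    have h9 : (k i : ℝ) ^ 2 - 4 * n i = (√(n i : ℝ) * (2 * Real.sinh (θ i))) ^ 2 := by
      have h10 : √(n i : ℝ) ^ 2 = n i := Real.sq_sqrt (by linarith)
      have h11 : Real.cosh (θ i) ^ 2 = Real.sinh (θ i) ^ 2 + 1 := Real.cosh_sq _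
      rw [hk1, mul_pow, mul_pow, mul_pow, h10, h11, mul_pow]
      ring
    rw [h9, Real.sqrt_sq h7.le]

end Pool.Agent.RRG
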