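import Pool.Agent.RRG.St

/-!
# RRG, module TWI: the identity for the two particle functional
-/

set_option autoImplicit false

open Finset MeasureTheory Filter Topology

namespace Pool.Agent.RRG

open Pool.Agent.Helper51.RT

/-- one term of the two particle functional -/
noncomputable def TWIa (m : ℤ) (ρ : ℝ) (i j : ℕ) (x y : ℤ) : ℝ :=
  if i < j ∧ x - y = m then (-1 : ℝ) ^ (i + j + 1) * ρ ^ (x + y) else 0

/-- the two particle functional of a sequence of positions -/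
noncomputable def TWIy (N : ℕ) (m : ℤ) (ρ : ℝ) (l : ℕ → ℤ) : ℝ :=
  ∑ j ∈ range N, ∑ i ∈ range N, TWIa m ρ i j (l i) (l j)

/-- the part of the pairs with row `j`, this row being at `x` -/
noncomputable def TWIt (N : ℕ) (m : ℤ) (ρ : ℝ) (l : ℕ → ℤ) (j : ℕ) (x : ℤ) : ℝ :=
  ∑ i ∈ range N, (TWIa m ρ i j (l i) x + TWIa m ρ j i x (l i))

theorem TWI_a_zero (m : ℤ) (ρ : ℝ) {i j : ℕ} (h : j ≤ i) (x y : ℤ) : TWIa m ρ i j x y = 0 := by
  unfold TWIa
  rw [if_neg]
  intro h1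
  omega

theorem TWI_a_ne (m : ℤ) (ρ : ℝ) (i j : ℕ) {x y : ℤ} (h : x - y ≠ m) : TWIa m ρ i j x y = 0 := by
  unfold TWIa
  rw [if_neg]
  exact fun h1 => h h1.2

theorem TWI_yy (N m : ℕ) (ρ : ℝ) (μ : ℕ → ℕ) :
    YY N m ρ μ = TWIy N m ρ (fun i => (μ i : ℤ) - i) := by
  unfold YY TWIy
  refine sum_congr rfl fun j hj => ?_
  rw [mem_range] at hj
  have h1 : ∑ i ∈ range N, TWIa m ρ i j ((μ i : ℤ) - i) ((μ j : ℤ) - j) =
      ∑ i ∈ range j, TWIa m ρ i j ((μ i : ℤ) - i) ((μ j : ℤ) - j) := by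
    symm
    refine sum_subset ?_ ?_
    · intro i hi
      rw [mem_range] at *
      omega
    · intro i _ hi
      rw [mem_range, not_lt] at hi
      exact TWI_a_zero _ _ hi _ _
  rw [h1]
  refine sum_congr rfl fun i hi => ?_
  rw [mem_range] at hi
  unfold TWIa
  by_cases h : ((μ i : ℤ) - i) - ((μ j : ℤ) - j) = m
  · rw [if_pos h, if_pos ⟨hi, h⟩]
  · rw [if_neg h, if_neg fun h2 => h h2.2]

theorem TWI_upd {N : ℕ} (m : ℤ) (ρ : ℝ) (l : ℕ → ℤ) {j : ℕ} (hj : j < N) (x : ℤ) :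
    TWIy N m ρ (Function.update l j x) =
      TWIy N m ρ l + (TWIt N m ρ l j x - TWIt N m ρ l j (l j)) := by
  have key : ∀ j' i : ℕ, TWIa m ρ i j' (Function.update l j x i) (Function.update l j x j') =
      TWIa m ρ i j' (l i) (l j') +
      (if i = j then (TWIa m ρ j j' x (l j') - TWIa m ρ j j' (l j) (l j')) else 0) +
      (if j' = j then (TWIa m ρ i j (l i) x - TWIa m ρ i j (l i) (l j)) else 0) := by
    intro j' i
    by_cases h1 : i = j
    · subst h1
      rw [Function.update_self, if_pos rfl]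
      by_cases h2 : j' = i
      · subst h2
        rw [if_pos rfl]
        simp only [TWI_a_zero m ρ (le_refl j')]
        ring
      · rw [Function.update_of_ne h2, if_neg h2]
        ring
    · rw [Function.update_of_ne h1, if_neg h1]
      by_cases h2 : j' = j
      · subst h2
        rw [Function.update_self, if_pos rfl]
        ring
      · rw [Function.update_of_ne h2, if_neg h2]
        ring
  unfold TWIy
  simp only [key, sum_add_distrib]
  have e1 : ∑ j' ∈ range N, ∑ i ∈ range N,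
      (if i = j then (TWIa m ρ j j' x (l j') - TWIa m ρ j j' (l j) (l j')) else 0) =
      ∑ j' ∈ range N, (TWIa m ρ j j' x (l j') - TWIa m ρ j j' (l j) (l j')) := by
    refine sum_congr rfl fun j' _ => ?_
    rw [sum_ite_eq' (range N) j, if_pos (mem_range.2 hj)]
  have e2 : ∑ j' ∈ range N, ∑ i ∈ range N,
      (if j' = j then (TWIa m ρ i j (l i) x - TWIa m ρ i j (l i) (l j)) else 0) =
      ∑ i ∈ range N, (TWIa m ρ i j (l i) x - TWIa m ρ i j (l i) (l j)) := by
    rw [sum_comm]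
    refine sum_congr rfl fun i _ => ?_
    rw [sum_ite_eq' (range N) j, if_pos (mem_range.2 hj)]
  rw [e1, e2]
  unfold TWIt
  simp only [sum_add_distrib, sum_sub_distrib]
  ring

theorem TWI_r1 (m : ℤ) {ρ : ℝ} (hρ : ρ ≠ 0) (i j : ℕ) (x y : ℤ) :
    TWIa m ρ i j x (y + 1) = ρ * TWIa (m + 1) ρ i j x y := by
  unfold TWIa
  by_cases h : i < j ∧ x - y = m + 1
  · rw [if_pos h, if_pos ⟨h.1, by linarith [h.2]⟩, ← add_assoc, zpow_add_one₀ hρ]
    ring
  · rw [if_neg h, if_neg, mul_zero]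
    exact fun h2 => h ⟨h2.1, by linarith [h2.2]⟩

theorem TWI_r2 (m : ℤ) {ρ : ℝ} (hρ : ρ ≠ 0) (i j : ℕ) (x y : ℤ) :
    TWIa m ρ i j (x + 1) y = ρ * TWIa (m - 1) ρ i j x y := by
  unfold TWIa
  by_cases h : i < j ∧ x - y = m - 1
  · have e : x + 1 + y = (x + y) + 1 := by ring
    rw [if_pos h, if_pos ⟨h.1, by linarith [h.2]⟩, e, zpow_add_one₀ hρ]
    ring
  · rw [if_neg h, if_neg, mul_zero]
    exact fun h2 => h ⟨h2.1, by linarith [h2.2]⟩

theorem TWI_l1 (m : ℤ) {ρ : ℝ} (hρ : ρ ≠ 0) (i j : ℕ) (x y : ℤ) :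
    TWIa m ρ i j x (y - 1) = ρ⁻¹ * TWIa (m - 1) ρ i j x y := by
  have h := TWI_r1 (m - 1) hρ i j x (y - 1)
  rw [sub_add_cancel, sub_add_cancel] at h
  rw [h, ← mul_assoc, inv_mul_cancel₀ hρ, one_mul]

theorem TWI_l2 (m : ℤ) {ρ : ℝ} (hρ : ρ ≠ 0) (i j : ℕ) (x y : ℤ) :
    TWIa m ρ i j (x - 1) y = ρ⁻¹ * TWIa (m + 1) ρ i j x y := by
  have h := TWI_r2 (m + 1) hρ i j (x - 1) y
  rw [sub_add_cancel, add_sub_cancel_right] at h
  rw [h, ← mul_assoc, inv_mul_cancel₀ hρ, one_mul]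

theorem TWI_up (N : ℕ) (m : ℤ) {ρ : ℝ} (hρ : ρ ≠ 0) (l : ℕ → ℤ) :
    ∑ j ∈ range N, TWIt N m ρ l j (l j + 1) = ρ * (TWIy N (m - 1) ρ l + TWIy N (m + 1) ρ l) := by
  unfold TWIt TWIy
  simp only [TWI_r1 m hρ, TWI_r2 m hρ, sum_add_distrib, ← mul_sum]
  rw [sum_comm (f := fun j i => TWIa (m - 1) ρ j i (l j) (l i))]
  ring

theorem TWI_down (N : ℕ) (m : ℤ) {ρ : ℝ} (hρ : ρ ≠ 0) (l : ℕ → ℤ) :
    ∑ j ∈ range N, TWIt N m ρ l j (l j - 1) = ρ⁻¹ * (TWIy N (m - 1) ρ l + TWIy N (m + 1) ρ l) := by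
  unfold TWIt TWIy
  simp only [TWI_l1 m hρ, TWI_l2 m hρ, sum_add_distrib, ← mul_sum]
  rw [sum_comm (f := fun j i => TWIa (m + 1) ρ j i (l j) (l i))]
  ring

theorem TWI_pair {N : ℕ} (m : ℤ) (ρ : ℝ) (l : ℕ → ℤ) {j : ℕ} (hj : j + 1 < N) (x : ℤ) :
    TWIt N m ρ l (j + 1) x + TWIt N m ρ l j x =
      TWIa m ρ j (j + 1) (l j) x + TWIa m ρ j (j + 1) x (l (j + 1)) := by
  have key : ∀ i ∈ range N, (TWIa m ρ i (j + 1) (l i) x + TWIa m ρ (j + 1) i x (l i)) +
      (TWIa m ρ i j (l i) x + TWIa m ρ j i x (l i)) =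
      (if i = j then TWIa m ρ j (j + 1) (l j) x else 0) +
      (if i = j + 1 then TWIa m ρ j (j + 1) x (l (j + 1)) else 0) := by
    intro i _
    rcases lt_trichotomy i j with h | h | h
    · rw [if_neg (by omega), if_neg (by omega), TWI_a_zero m ρ (by omega : i ≤ j + 1),
        TWI_a_zero m ρ (by omega : i ≤ j)]
      unfold TWIa
      by_cases h1 : l i - x = m
      · rw [if_pos ⟨by omega, h1⟩, if_pos ⟨h, h1⟩]
        ring
      · rw [if_neg (fun h2 => h1 h2.2), if_neg (fun h2 => h1 h2.2)]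
        ring
    · subst h
      rw [if_pos rfl, if_neg (by omega), TWI_a_zero m ρ (by omega : i ≤ i + 1),
        TWI_a_zero m ρ (le_refl i), TWI_a_zero m ρ (le_refl i)]
      ring
    · rcases Nat.lt_or_ge (j + 1) i with h2 | h2
      · rw [if_neg (by omega), if_neg (by omega), TWI_a_zero m ρ (by omega : j + 1 ≤ i),
          TWI_a_zero m ρ (by omega : j ≤ i)]
        unfold TWIa
        by_cases h1 : x - l i = m
        · rw [if_pos ⟨h2, h1⟩, if_pos ⟨h, h1⟩]
          ring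
        · rw [if_neg (fun h2 => h1 h2.2), if_neg (fun h2 => h1 h2.2)]
          ring
      · obtain rfl : i = j + 1 := by omega
        rw [if_neg (by omega), if_pos rfl, TWI_a_zero m ρ (le_refl (j + 1)),
          TWI_a_zero m ρ (le_refl (j + 1)), TWI_a_zero m ρ (by omega : j ≤ j + 1)]
        ring
  unfold TWIt
  rw [← sum_add_distrib, sum_congr rfl key, sum_add_distrib, sum_ite_eq' (range N) j,
    sum_ite_eq' (range N) (j + 1), if_pos (mem_range.2 (by omega)), if_pos (mem_range.2 hj)]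

theorem TWI_step {N : ℕ} {m : ℤ} (hm : m ≠ 0) (ρ : ℝ) (l : ℕ → ℤ) {j : ℕ} (hj : j + 1 < N)
    (hl : l (j + 1) = l j - 1) :
    TWIt N m ρ l (j + 1) (l (j + 1) + 1) - TWIt N m ρ l (j + 1) (l (j + 1)) =
      TWIt N m ρ l j (l j - 1) - TWIt N m ρ l j (l j) := by
  have h1 := TWI_pair m ρ l hj (l j)
  have h2 := TWI_pair m ρ l hj (l (j + 1))
  rw [TWI_a_ne m ρ j (j + 1) (x := l j) (y := l j) (by rw [sub_self]; exact hm.symm)] at h1
  rw [TWI_a_ne m ρ j (j + 1) (x := l (j + 1)) (y := l (j + 1)) (by rw [sub_self]; exact hm.symm)] at h2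
  have h3 : l (j + 1) + 1 = l j := by rw [hl]; ring
  rw [h3, ← hl]
  linarith

theorem TWI_add (μ : ℕ → ℕ) (j : ℕ) : (fun i => (add μ j i : ℤ) - i) =
    Function.update (fun i => (μ i : ℤ) - i) j (((μ j : ℤ) - j) + 1) := by
  funext i
  by_cases h : i = j
  · subst h
    rw [add_same, Function.update_self]
    push_cast
    ring
  · rw [add_ne μ h, Function.update_of_ne h]

theorem TWI_rem (μ : ℕ → ℕ) (j : ℕ) (hr : CanRem μ j) : (fun i => (rem μ j i : ℤ) - i) =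
    Function.update (fun i => (μ i : ℤ) - i) j (((μ j : ℤ) - j) - 1) := by
  have hpos : 1 ≤ μ j := by
    unfold CanRem at hr
    omega
  funext i
  by_cases h : i = j
  · subst h
    rw [rem_same, Function.update_self]
    push_cast [Nat.cast_sub hpos]
    ring
  · rw [rem_ne μ h, Function.update_of_ne h]

theorem TWI_bound {M n : ℕ} (m : ℤ) {ρ : ℝ} (hρ : 1 < ρ) {μ : ℕ → ℕ} (hμ : Part n μ) (x : ℤ) :
    |TWIt (M + 1) m ρ (fun i => (μ i : ℤ) - i) M x| ≤ ρ ^ ((n : ℤ) + x) := by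
  have hρ0 : 0 < ρ := by linarith
  have hinj : ∀ i i' : ℕ, i < i' → (μ i' : ℤ) - i' < (μ i : ℤ) - i := by
    intro i i' h
    have h1 : (μ i' : ℤ) ≤ μ i := by exact_mod_cast hμ.1 h.le
    have h2 : (i : ℤ) < i' := by exact_mod_cast h
    linarith
  have h1 : TWIt (M + 1) m ρ (fun i => (μ i : ℤ) - i) M x =
      ∑ i ∈ range (M + 1), TWIa m ρ i M ((μ i : ℤ) - i) x := by
    unfold TWIt
    refine sum_congr rfl fun i hi => ?_
    rw [mem_range] at hi
    rw [TWI_a_zero m ρ (by omega : i ≤ M), add_zero]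
  rw [h1]
  by_cases h : ∃ i0, i0 < M ∧ ((μ i0 : ℤ) - i0) - x = m
  · obtain ⟨i0, hi0, he⟩ := h
    rw [sum_eq_single i0]
    · unfold TWIa
      rw [if_pos ⟨hi0, he⟩, abs_mul, abs_pow, abs_neg, abs_one, one_pow, one_mul,
        abs_of_pos (zpow_pos hρ0 _)]
      refine zpow_le_zpow_right₀ hρ.le ?_
      have h2 : (μ i0 : ℤ) ≤ n := by exact_mod_cast hμ.2.2 i0
      have h3 : (0 : ℤ) ≤ i0 := by positivity
      linarith
    · intro i _ hi
      refine TWI_a_ne m ρ i M fun h2 => hi ?_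
      rcases lt_trichotomy i i0 with h3 | h3 | h3
      · have := hinj i i0 h3
        linarith
      · exact h3
      · have := hinj i0 i h3
        linarith
    · intro h2
      exact absurd (mem_range.2 (by omega)) h2
  · rw [sum_eq_zero, abs_zero]
    · exact (zpow_pos hρ0 _).le
    · intro i _
      unfold TWIa
      rw [if_neg]
      exact fun h2 => h ⟨i, h2.1, h2.2⟩

/-- [TWI] -/
theorem thm_TWI : St_TWI := by
  intro M n m ρ hρ hm hn μ hμ
  have hρ0 : ρ ≠ 0 := by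
    have : 0 < ρ := by linarith
    exact this.ne'
  have hM0 : μ M = 0 := hμ.2.1 M hn
  have hm0 : (m : ℤ) ≠ 0 := by
    intro h
    have : m = 0 := by exact_mod_cast h
    omega
  set l : ℕ → ℤ := fun i => (μ i : ℤ) - i with hl
  set N := M + 1 with hN
  have hU : U N (YY N m ρ) μ =
      (∑ j ∈ range N, if CanAdd μ j then (1 : ℝ) else 0) * TWIy N m ρ l +
      (∑ j ∈ range N, (TWIt N m ρ l j (l j + 1) - TWIt N m ρ l j (l j))) -
      (∑ j ∈ range N, if CanAdd μ j then 0 else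
        (TWIt N m ρ l j (l j + 1) - TWIt N m ρ l j (l j))) := by
    unfold U
    rw [Finset.sum_mul, ← Finset.sum_add_distrib, ← Finset.sum_sub_distrib]
    apply Finset.sum_congr rfl
    intro j hj
    rw [mem_range] at hj
    split_ifs with h
    · rw [TWI_yy, TWI_add, TWI_upd _ _ _ hj]
      ring
    · ring
  have hD : D N (YY N m ρ) μ =
      (∑ j ∈ range N, if CanRem μ j then (1 : ℝ) else 0) * TWIy N m ρ l +
      (∑ j ∈ range N, (TWIt N m ρ l j (l j - 1) - TWIt N m ρ l j (l j))) -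
      (∑ j ∈ range N, if CanRem μ j then 0 else
        (TWIt N m ρ l j (l j - 1) - TWIt N m ρ l j (l j))) := by
    unfold D
    rw [Finset.sum_mul, ← Finset.sum_add_distrib, ← Finset.sum_sub_distrib]
    apply Finset.sum_congr rfl
    intro j hj
    rw [mem_range] at hj
    split_ifs with h
    · rw [TWI_yy, TWI_rem μ j h, TWI_upd _ _ _ hj]
      ring
    · ring
  have hdiff : (∑ j ∈ range N, if CanRem μ j then 0 else
        (TWIt N m ρ l j (l j - 1) - TWIt N m ρ l j (l j))) =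
      (∑ j ∈ range N, if CanAdd μ j then 0 else
        (TWIt N m ρ l j (l j + 1) - TWIt N m ρ l j (l j))) +
      (TWIt N m ρ l M (l M - 1) - TWIt N m ρ l M (l M)) := by
    have s1 := Finset.sum_range_succ (fun j => if CanRem μ j then (0 : ℝ) else
      (TWIt (M + 1) m ρ l j (l j - 1) - TWIt (M + 1) m ρ l j (l j))) M
    have s2 := Finset.sum_range_succ' (fun j => if CanAdd μ j then (0 : ℝ) else
      (TWIt (M + 1) m ρ l j (l j + 1) - TWIt (M + 1) m ρ l j (l j))) M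
    rw [hN, s1, s2, if_pos (canAdd_zero μ), add_zero]
    have h1 : ¬ CanRem μ M := by
      unfold CanRem
      rw [hM0]
      omega
    rw [if_neg h1]
    congr 1
    refine sum_congr rfl fun j hj => ?_
    rw [mem_range] at hj
    by_cases hr : CanRem μ j
    · rw [if_pos ((canAdd_succ μ j).mpr hr), if_pos hr]
    · rw [if_neg (fun h => hr ((canAdd_succ μ j).mp h)), if_neg hr]
      have h2 : μ (j + 1) = μ j := by
        unfold CanRem at hr
        have := hμ.1 (Nat.le_succ j)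
        exact le_antisymm this (not_lt.mp hr)
      refine (TWI_step hm0 ρ l (by omega) ?_).symm
      simp only [hl, h2]
      push_cast
      ring
  have e1 : YY N m ρ μ = TWIy N m ρ l := TWI_yy N m ρ μ
  have e2 : YY N (m - 1) ρ μ = TWIy N ((m : ℤ) - 1) ρ l := by
    rw [TWI_yy]
    congr 1
    push_cast [Nat.cast_sub hm]
    ring
  have e3 : YY N (m + 1) ρ μ = TWIy N ((m : ℤ) + 1) ρ l := by
    rw [TWI_yy]
    push_cast
    rfl
  have hlM : l M = -(M : ℤ) := by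
    simp only [hl, hM0]
    push_cast
    ring
  have hmain : U N (YY N m ρ) μ - D N (YY N m ρ) μ - YY N m ρ μ -
      (ρ - ρ⁻¹) * (YY N (m - 1) ρ μ + YY N (m + 1) ρ μ) =
      TWIt N m ρ l M (l M - 1) - TWIt N m ρ l M (l M) := by
    rw [hU, hD, hdiff, e1, e2, e3, hN, count_add_rem hM0, ← hN, Finset.sum_sub_distrib,
      Finset.sum_sub_distrib, TWI_up N m hρ0 l, TWI_down N m hρ0 l]
    ring
  rw [hmain]
  have b1 := TWI_bound (M := M) (m : ℤ) hρ hμ (l M - 1)
  have b2 := TWI_bound (M := M) (m : ℤ) hρ hμ (l M)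
  have b3 : ρ ^ ((n : ℤ) + (l M - 1)) ≤ ρ ^ ((n : ℤ) - M) := by
    refine zpow_le_zpow_right₀ hρ.le ?_
    rw [hlM]
    linarith
  have b4 : ρ ^ ((n : ℤ) + l M) = ρ ^ ((n : ℤ) - M) := by
    rw [hlM, sub_eq_add_neg]
  rw [b4] at b2
  calc |TWIt N m ρ l M (l M - 1) - TWIt N m ρ l M (l M)|
      ≤ |TWIt N m ρ l M (l M - 1)| + |TWIt N m ρ l M (l M)| := abs_sub _ _
    _ ≤ ρ ^ ((n : ℤ) - M) + ρ ^ ((n : ℤ) - M) := add_le_add (b1.trans b3) b2
    _ = 2 * ρ ^ ((n : ℤ) - M) := by ring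

end Pool.Agent.RRG
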